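import Pool.Agent.Helper52_Nets.Limits

/-!
The compactness theorem (MP_f059bd_gt, module M7).
-/

set_option autoImplicit false

open Set Filter Topology Metric
open scoped ContDiff

namespace Pool.Agent.Helper52Nets

open Pool.Agent.Helper4Nets

variable {S : Type} [MetricSpace S] {A : GoodAtlas S}

/-- restriction to a configuration, as a linear map -/
noncomputable def restrL (C : Config A) : (A.ι → E2 → E2) →ₗ[ℝ] (Fin C.n → E2) where
  toFun := C.restr
  map_add' := fun _ _ => rfl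
  map_smul' := fun _ _ => rfl

/-- `d1` as a linear map -/
noncomputable def d1L (C : Config A) (a b : Fin C.n) : (Fin C.n → E2) →ₗ[ℝ] ℝ where
  toFun := C.d1 a b
  map_add' := fun ξ ζ => by
    simp only [Config.d1, Pi.add_apply]
    rw [← Prod.mk_add_mk, map_add]
  map_smul' := fun t ξ => by
    simp only [Config.d1, Pi.smul_apply, RingHom.id_apply]
    rw [← Prod.smul_mk, map_smul]

theorem d2_smul (C : Config A) (a b : Fin C.n) (t : ℝ) (ξ : Fin C.n → E2) :
    C.d2 a b (t • ξ) (t • ξ) = t ^ 2 * C.d2 a b ξ ξ := by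
  simp only [Config.d2, Pi.smul_apply]
  rw [← Prod.smul_mk, map_smul, map_smul]
  simp only [smul_apply, smul_eq_mul]
  ring

theorem d1_restr (C : Config A) {k : A.ι → E2 → E2} (hk : k ∈ A.Killing)
    {a b : Fin C.n} (he : C.edge A.r a b) : C.d1 a b (C.restr k) = 0 := by
  have ha := A.K_sub _ (C.mem a)
  have hb := A.K_sub _ (C.mem b)
  have h0 : 0 < dist (C.x a) (C.x b) := dist_pos.2 fun h => he.1 (C.inj h)
  have h1 : A.ell (C.i a) (C.i b) (C.q a, C.q b) = dist (C.x a) (C.x b) :=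
    ell_apply ha hb
  exact hk (C.i a) (C.i b) (C.q a) ((A.c _).map_source ha) (C.q b) ((A.c _).map_source hb)
    (by rw [h1]; exact h0) (by rw [h1]; exact he.2)

/-- normalised bad fields -/
theorem exists_normalized (C : Config A) (N : Submodule ℝ (Fin C.n → E2))
    (hKN : ∀ k ∈ A.Killing, C.restr k ∈ N)
    (hsol : ∀ ξ ∈ N, ∃ η : Fin C.n → E2, ∀ a b, C.edge A.r a b → C.d2 a b ξ ξ = C.d1 a b η)
    (ξ : Fin C.n → E2) (hξ : ξ ∈ N) (hbad : ∀ k ∈ A.Killing, C.restr k ≠ ξ) :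
    ∃ x y : Fin C.n → E2, (∀ a b, C.edge A.r a b → C.d2 a b x x = C.d1 a b y) ∧
      (∀ k ∈ A.Killing, ‖x‖ ≤ ‖x - C.restr k‖) ∧ (∀ k ∈ A.Killing, ‖y‖ ≤ ‖y - C.restr k‖) ∧
      ‖x‖ ≤ 1 ∧ ‖y‖ ≤ 1 ∧ (‖x‖ = 1 ∨ ‖y‖ = 1) := by
  let R : Submodule ℝ (Fin C.n → E2) := A.Killing.map (restrL C)
  have hRc : IsClosed (R : Set (Fin C.n → E2)) := R.closed_of_finiteDimensional
  obtain ⟨_, ⟨k0, hk0, rfl⟩, hmin⟩ := hRc.exists_infDist_eq_dist ⟨0, R.zero_mem⟩ ξ
  set x0 := ξ - C.restr k0 with hx0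
  have hx0N : x0 ∈ N := N.sub_mem hξ (hKN k0 hk0)
  have hx0ne : x0 ≠ 0 := fun h => hbad k0 hk0 (sub_eq_zero.1 h).symm
  have hx0min : ∀ k ∈ A.Killing, ‖x0‖ ≤ ‖x0 - C.restr k‖ := by
    intro k hk
    have h1 : infDist ξ (R : Set (Fin C.n → E2)) ≤ dist ξ (restrL C (k0 + k)) :=
      infDist_le_dist_of_mem ⟨k0 + k, A.Killing.add_mem hk0 hk, rfl⟩
    rw [hmin, dist_eq_norm, dist_eq_norm, map_add] at h1
    have e : ξ - (restrL C k0 + restrL C k) = x0 - C.restr k := by
      rw [hx0]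
      show ξ - (C.restr k0 + C.restr k) = ξ - C.restr k0 - C.restr k
      abel
    rw [e] at h1
    exact h1
  obtain ⟨η1, hη1⟩ := hsol x0 hx0N
  let T : Set (Fin C.n → E2) := {η | ∀ a b, C.edge A.r a b → C.d2 a b x0 x0 = C.d1 a b η}
  have hTc : IsClosed T := by
    have : T = ⋂ a, ⋂ b, ⋂ (_ : C.edge A.r a b), {η | d1L C a b η = C.d2 a b x0 x0} := by
      ext η
      simp only [T, mem_ofPred_eq, mem_iInter]
      exact forall_congr' fun a => forall_congr' fun b => forall_congr' fun _ => eq_comm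
    rw [this]
    refine isClosed_iInter fun a => isClosed_iInter fun b => isClosed_iInter fun _ => ?_
    exact isClosed_eq (LinearMap.continuous_of_finiteDimensional _) continuous_const
  obtain ⟨y0, hy0, hymin⟩ := hTc.exists_infDist_eq_dist ⟨η1, hη1⟩ 0
  have hy0min : ∀ k ∈ A.Killing, ‖y0‖ ≤ ‖y0 - C.restr k‖ := by
    intro k hk
    have hmem : y0 - C.restr k ∈ T := by
      intro a b he
      have e1 : C.d1 a b (y0 - C.restr k) = C.d1 a b y0 - C.d1 a b (C.restr k) :=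
        map_sub (d1L C a b) y0 (C.restr k)
      rw [e1, d1_restr C hk he, sub_zero]
      exact hy0 a b he
    have h1 := infDist_le_dist_of_mem (x := (0 : Fin C.n → E2)) hmem
    rw [hymin, dist_zero_left, dist_zero_left] at h1
    exact h1
  -- scaling
  have hxpos : 0 < ‖x0‖ := norm_pos_iff.2 hx0ne
  set m := max (‖x0‖ ^ 2) ‖y0‖ with hm
  have hmpos : 0 < m := lt_max_of_lt_left (by positivity)
  set s := Real.sqrt (1 / m) with hs
  have hspos : 0 < s := Real.sqrt_pos.2 (by positivity)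
  have hs2 : s ^ 2 = 1 / m := Real.sq_sqrt (by positivity)
  have hscale : ∀ (t : ℝ), 0 < t → ∀ z : Fin C.n → E2,
      (∀ k ∈ A.Killing, ‖z‖ ≤ ‖z - C.restr k‖) → ∀ k ∈ A.Killing,
      ‖t • z‖ ≤ ‖t • z - C.restr k‖ := by
    intro t ht z hz k hk
    have h1 := hz (t⁻¹ • k) (A.Killing.smul_mem _ hk)
    have e : t • z - C.restr k = t • (z - C.restr (t⁻¹ • k)) := by
      have : C.restr (t⁻¹ • k) = t⁻¹ • C.restr k := rfl
      rw [this, smul_sub, smul_smul, mul_inv_cancel₀ ht.ne', one_smul]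
    rw [e, norm_smul, norm_smul]
    exact mul_le_mul_of_nonneg_left h1 (norm_nonneg _)
  have nx : ‖s • x0‖ ^ 2 = ‖x0‖ ^ 2 / m := by
    rw [norm_smul, mul_pow, Real.norm_eq_abs, sq_abs, hs2]
    ring
  have ny : ‖(s ^ 2) • y0‖ = ‖y0‖ / m := by
    rw [norm_smul, Real.norm_eq_abs, abs_of_pos (by positivity), hs2]
    ring
  refine ⟨s • x0, (s ^ 2) • y0, ?_, hscale s hspos x0 hx0min,
    hscale (s ^ 2) (by positivity) y0 hy0min, ?_, ?_, ?_⟩
  · intro a b he
    rw [d2_smul C, hy0 a b he]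
    exact (map_smul (d1L C a b) (s ^ 2) y0).symm
  · have h1 : ‖s • x0‖ ^ 2 ≤ 1 := by
      rw [nx, div_le_one hmpos]
      exact le_max_left _ _
    exact (sq_le_one_iff₀ (norm_nonneg _)).1 h1
  · rw [ny, div_le_one hmpos]
    exact le_max_right _ _
  · rcases le_total (‖x0‖ ^ 2) ‖y0‖ with h | h
    · right
      have : m = ‖y0‖ := max_eq_right h
      rw [ny, ← this, div_self hmpos.ne']
    · left
      have : m = ‖x0‖ ^ 2 := max_eq_left h
      have h1 : ‖s • x0‖ ^ 2 = 1 := by rw [nx, ← this, div_self hmpos.ne']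
      exact (pow_eq_one_iff_of_nonneg (norm_nonneg _) (by norm_num)).1 h1

/-- MODULE M7. -/
theorem compactness [CompactSpace S] [ConnectedSpace S] (A : GoodAtlas S) (hL : LocalRigidity)
    (hD : Directions) (hE : ExistsEquilibrium A) : Compactness A := by
  by_contra hcon
  unfold Compactness at hcon
  push Not at hcon
  have hstep : ∀ n : ℕ, ∃ C : Config A, C.dense (1 / ((n : ℝ) + 1)) ∧
      ∃ x y : Fin C.n → E2, (∀ a b, C.edge A.r a b → C.d2 a b x x = C.d1 a b y) ∧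
      (∀ k ∈ A.Killing, ‖x‖ ≤ ‖x - C.restr k‖) ∧ (∀ k ∈ A.Killing, ‖y‖ ≤ ‖y - C.restr k‖) ∧
      ‖x‖ ≤ 1 ∧ ‖y‖ ≤ 1 ∧ (‖x‖ = 1 ∨ ‖y‖ = 1) := by
    intro n
    obtain ⟨C, hd, N, hKN, hsol, ξ, hξ, hbad⟩ := hcon (1 / ((n : ℝ) + 1)) (by positivity)
    exact ⟨C, hd, exists_normalized C N hKN hsol ξ hξ hbad⟩
  choose C hd x y hrel hxmin hymin hx hy hxy using hstep
  let U : Ultrafilter ℕ := hyperfilter ℕ
  have hU : (U : Filter ℕ) ≤ atTop := Nat.hyperfilter_le_atTop
  -- the limits of `x` are Killing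
  have H1 : ∀ L : Lim C U x, L.fld ∈ A.Killing := by
    intro L
    choose η0 hη0 hη using fun X : S => exists_tendsto_of_bounded U hy (L.v X)
    refine killing_of_rel (h := L.fld2 η0) hL hE L.compat
      (lim_bounded L (L.norm_le hx) hη0) ?_
    exact L.rel_of_base η0 (base_rel L.hv L.src L.hi L.hξ hη hrel)
  obtain ⟨k, hk, hlim⟩ := uniform_of_killing hD hU hd hx H1
  have hx0 : Tendsto (fun n => ‖x n‖) U (𝓝 0) :=
    squeeze_zero (fun _ => norm_nonneg _) (fun n => hxmin n k hk) hlim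
  -- the limits of `y` are Killing
  have H2 : ∀ L : Lim C U y, L.fld ∈ A.Killing := by
    intro L
    refine mem_killing_of_uu L.compat fun X Y h0 hr => ?_
    have hξ : ∀ X, Tendsto (fun n => x n (L.v X n)) U (𝓝 (0 : E2)) := by
      intro X
      rw [tendsto_zero_iff_norm_tendsto_zero]
      exact squeeze_zero (fun _ => norm_nonneg _) (fun n => norm_le_pi_norm (x n) _) hx0
    have h1 := base_rel (ξ0 := fun _ => 0) L.hv L.src L.hi hξ L.hξ hrel X Y h0 hr
    have h2 : ((0 : E2), (0 : E2)) = (0 : E2 × E2) := rfl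
    rw [← uu_eq L.compat (L.src X) (L.src Y) h0 hr, L.fld_base X, L.fld_base Y, ← h1]
    simp only [h2, map_zero]
  obtain ⟨k', hk', hlim'⟩ := uniform_of_killing hD hU hd hy H2
  have hy0 : Tendsto (fun n => ‖y n‖) U (𝓝 0) :=
    squeeze_zero (fun _ => norm_nonneg _) (fun n => hymin n k' hk') hlim'
  have e1 := hx0.eventually (gt_mem_nhds one_pos)
  have e2 := hy0.eventually (gt_mem_nhds one_pos)
  obtain ⟨n, h1, h2⟩ := (e1.and e2).exists
  rcases hxy n with h | h
  · rw [h] at h1; exact lt_irrefl _ h1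
  · rw [h] at h2; exact lt_irrefl _ h2

end Pool.Agent.Helper52Nets


namespace Pool.Agent.Helper4Nets

/-- MODULE M7. -/
theorem compactness {S : Type} [MetricSpace S] [CompactSpace S] [ConnectedSpace S]
    (hL : LocalRigidity) (hD : Directions) (A : GoodAtlas S) (hE : ExistsEquilibrium A) :
    Compactness A :=
  Pool.Agent.Helper52Nets.compactness A hL hD hE

end Pool.Agent.Helper4Nets
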