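import Pool.Agent.Helper4_Nets.M4.Split

/-! Module M4 of the blueprint, step P6: the fields are `C²`. -/

set_option autoImplicit false

open Set Filter Topology Metric
open scoped ContDiff

namespace Pool.Agent.Helper4Nets

/-- solution of a linear system with smooth coefficients -/
lemma p6_system {n : ℕ∞ω} {f : E2 → E2} {x₀ : E2} {M : E2 → E2 →L[ℝ] ℝ × ℝ}
    {b : E2 → ℝ × ℝ} (hM : ContDiffAt ℝ n M x₀) (hb : ContDiffAt ℝ n b x₀)
    (inj : ∀ w, M x₀ w = 0 → w = 0) (h : ∀ᶠ y in 𝓝 x₀, M y (f y) = b y) :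
    ContDiffAt ℝ n f x₀ := by
  have hdim : Module.finrank ℝ E2 = Module.finrank ℝ (ℝ × ℝ) := by simp
  have inj' : Function.Injective (M x₀) := (injective_iff_map_eq_zero (M x₀)).2 inj
  let e : E2 ≃L[ℝ] ℝ × ℝ :=
    (LinearMap.linearEquivOfInjective (M x₀).toLinearMap inj' hdim).toContinuousLinearEquiv
  have he : (e : E2 →L[ℝ] ℝ × ℝ) = M x₀ := by
    ext1 v
    rfl
  have hinv : ContDiffAt ℝ n (ContinuousLinearMap.inverse : (E2 →L[ℝ] ℝ × ℝ) → _) (M x₀) := by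
    have := contDiffAt_map_inverse (𝕜 := ℝ) (n := n) e
    rwa [he] at this
  have hrange : ∀ᶠ y in 𝓝 x₀, ∃ e' : E2 ≃L[ℝ] ℝ × ℝ, (e' : E2 →L[ℝ] ℝ × ℝ) = M y := by
    have h1 := ContinuousLinearEquiv.nhds e
    rw [he] at h1
    filter_upwards [hM.continuousAt h1] with y hy
    exact hy
  have hev : f =ᶠ[𝓝 x₀] fun y => ContinuousLinearMap.inverse (M y) (b y) := by
    filter_upwards [h, hrange] with y hy ⟨e', he'⟩
    rw [← hy, ← he', ContinuousLinearMap.inverse_equiv]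
    simp
  have h2 : ContDiffAt ℝ n (fun y => ContinuousLinearMap.inverse (M y) (b y)) x₀ :=
    (ContDiffAt.comp (g := ContinuousLinearMap.inverse) (f := M) x₀ hinv hM).clm_apply hb
  exact h2.congr_of_eventuallyEq hev

lemma p6_prod {n : ℕ∞ω} {r r' : E2 → E2 →L[ℝ] ℝ} {x₀ : E2} (h : ContDiffAt ℝ n r x₀)
    (h' : ContDiffAt ℝ n r' x₀) : ContDiffAt ℝ n (fun y => (r y).prod (r' y)) x₀ := by
  have h2 : ContDiff ℝ n (fun q : (E2 →L[ℝ] ℝ) × (E2 →L[ℝ] ℝ) => q.1.prod q.2) :=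
    (ContinuousLinearMap.prodₗᵢ (𝕜 := ℝ) (E := E2) (F := ℝ) (G := ℝ) ℝ).contDiff
  exact h2.contDiffAt.comp x₀ (h.prodMk h')

/-- standard basis vectors -/
noncomputable def sb (i : Fin 2) : E2 := EuclideanSpace.single i (1 : ℝ)

lemma sb_expand (v : E2) : v = v 0 • sb 0 + v 1 • sb 1 := by
  ext i
  fin_cases i <;> simp [sb]

namespace NiceLocal

variable {ρ : E2 → E2 → ℝ} {z : E2} {s : ℝ} {B : Set E2} (h : NiceLocal ρ z s B)

include h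

lemma p6_fd_swap {x y : E2} (hx : x ∈ B) (hy : y ∈ B) (a b : E2) :
    fderiv ℝ (sg ρ) (x, y) (a, b) = fderiv ℝ (sg ρ) (y, x) (b, a) := by
  have h1 := (h.sg_diff hy hx).hasFDerivAt
  have h2 : HasFDerivAt (fun p : E2 × E2 => (p.2, p.1))
      ((ContinuousLinearMap.snd ℝ E2 E2).prod (ContinuousLinearMap.fst ℝ E2 E2)) (x, y) :=
    hasFDerivAt_snd.prodMk hasFDerivAt_fst
  have h3 := HasFDerivAt.comp (x, y) (g := sg ρ) (f := fun p : E2 × E2 => (p.2, p.1)) h1 h2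
  have h4 : (sg ρ ∘ fun p : E2 × E2 => (p.2, p.1)) = sg ρ := by
    funext p
    simp only [Function.comp, sg, h.symm p.2 p.1]
  rw [h4] at h3
  rw [h3.fderiv]
  rfl

lemma p6_D2_swap {x y : E2} (hx : x ∈ B) (hy : y ∈ B) (a b a' b' : E2) :
    D2 (sg ρ) (x, y) (a, b) (a', b') = D2 (sg ρ) (y, x) (b, a) (b', a') := by
  have h1 := D2_comp_clm (f := sg ρ)
    (L := (ContinuousLinearMap.snd ℝ E2 E2).prod (ContinuousLinearMap.fst ℝ E2 E2))
    (x := (x, y)) (h.sg_cd2 hy hx) (a, b) (a', b')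
  have h2 : (fun p : E2 × E2 => sg ρ (((ContinuousLinearMap.snd ℝ E2 E2).prod
      (ContinuousLinearMap.fst ℝ E2 E2)) p)) = sg ρ := by
    funext p
    change sg ρ (p.2, p.1) = sg ρ p
    simp only [sg, h.symm p.2 p.1]
  rw [h2] at h1
  exact h1

/-- derivative of the eikonal equation -/
lemma p6_star {y P : E2} (hy : y ∈ B) (hP : P ∈ B) {e₁ e₂ : E2} (h11 : gm ρ y e₁ e₁ = 1)
    (h22 : gm ρ y e₂ e₂ = 1) (h12 : gm ρ y e₁ e₂ = 0)
    (hsp : ∀ v, v = gm ρ y e₁ v • e₁ + gm ρ y e₂ v • e₂) (v : E2) :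
    fderiv ℝ (sg ρ) (P, y) (v, 0) = Psi ρ y P e₁ * D2 (sg ρ) (P, y) (v, 0) (0, e₁) +
      Psi ρ y P e₂ * D2 (sg ρ) (P, y) (v, 0) (0, e₂) := by
  have key : (fun P' : E2 => sg ρ (P', y)) =ᶠ[𝓝 P]
      fun P' => ((Psi ρ y P' e₁) ^ 2 + (Psi ρ y P' e₂) ^ 2) / 2 := by
    filter_upwards [h.nhds hP] with P' hP'
    obtain ⟨θ, h1, h2⟩ := h.eik P' hP' y hy
    have h3 : gm ρ y θ θ = ρ P' y ^ 2 := h2
    have h4 := h.gm_parseval hy h11 h22 h12 hsp θ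
    have h5 : ∀ w, Psi ρ y P' w = gm ρ y w θ := fun w => by
      rw [h.gm_symm hy]; exact h1 w
    rw [h5, h5, ← h4, h3]
    rfl
  have d1 : HasFDerivAt (fun P' : E2 => sg ρ (P', y))
      ((fderiv ℝ (sg ρ) (P, y)).comp (ContinuousLinearMap.inl ℝ E2 E2)) P := by
    have a : HasFDerivAt (fun q : E2 => (q, y)) (ContinuousLinearMap.inl ℝ E2 E2) P :=
      (hasFDerivAt_id P).prodMk (hasFDerivAt_const y P)
    exact HasFDerivAt.comp P (f := fun q : E2 => (q, y)) (h.sg_diff hP hy).hasFDerivAt a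
  have d2 : ∀ w : E2, HasFDerivAt (fun P' : E2 => Psi ρ y P' w)
      ((ContinuousLinearMap.apply ℝ ℝ w).comp
      ((((ContinuousLinearMap.compL ℝ E2 (E2 × E2) ℝ).flip (ContinuousLinearMap.inr ℝ E2 E2)).comp
      (D2 (sg ρ) (P, y))).comp (ContinuousLinearMap.inl ℝ E2 E2))) P := by
    intro w
    exact ((ContinuousLinearMap.apply ℝ ℝ w).hasFDerivAt (x := Psi ρ y P)).comp P
      (h.Psi_strict hP hy).hasFDerivAt
  have d3 := (((d2 e₁).pow 2).add ((d2 e₂).pow 2)).const_smul (1 / 2 : ℝ)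
  have d4 : HasFDerivAt (fun P' => ((Psi ρ y P' e₁) ^ 2 + (Psi ρ y P' e₂) ^ 2) / 2) _ P :=
    d3.congr_of_eventuallyEq (Eventually.of_forall fun P' => by simp; ring)
  have d5 := (d4.congr_of_eventuallyEq key).unique d1
  have d6 := congrArg (fun L : E2 →L[ℝ] ℝ => L v) d5
  simp only [ContinuousLinearMap.comp_apply, ContinuousLinearMap.inl_apply] at d6
  rw [← d6]
  simp [ContinuousLinearMap.compL_apply]
  ring

/-- the row of the linear system for `ξ` given by a base point `P` -/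
lemma p6_row {ξ : E2 → E2} {s₂ : ℝ} (hsB : ball z s₂ ⊆ B) {P : E2} (hP : P ∈ ball z s₂)
    {A : E2 →L[ℝ] E2}
    (hA : ∀ p ∈ ball z s₂, p ≠ P → ∀ v, Dd ρ ξ p P v = lam ρ p P (A v)) {y₀ : E2}
    (hy₀ : y₀ ∈ ball z s₂) (hne : y₀ ≠ P) :
    ∃ (r : E2 → E2 →L[ℝ] ℝ) (b : E2 → ℝ), ContDiffAt ℝ 2 r y₀ ∧ ContDiffAt ℝ 2 b y₀ ∧
      (∀ᶠ y in 𝓝 y₀, r y (ξ y) = b y) ∧
      ∀ w, r y₀ w = 0 → ∃ k : ℝ, ∀ v, D2 (sg ρ) (y₀, P) (w, 0) (0, v) = k * Psi ρ P y₀ v := by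
  have hPB := hsB hP
  have hyB := hsB hy₀
  let v : E2 → E2 := fun y => Psi ρ P y (sb 1) • sb 0 - Psi ρ P y (sb 0) • sb 1
  have hline : ContDiffAt ℝ 2 (fun y : E2 => (y, P)) y₀ := by fun_prop
  have hcd1 : ContDiffAt ℝ 2 (fderiv ℝ (sg ρ)) (y₀, P) :=
    contDiffAt_fderiv_of (m := 2) (n := 4) (by norm_num) (h.sg_cd hyB hPB)
  have hcd3 : ContDiffAt ℝ 3 (fderiv ℝ (sg ρ)) (y₀, P) :=
    (h.sg_cd hyB hPB).fderiv_right (by norm_num)
  have hcd2 : ContDiffAt ℝ 2 (D2 (sg ρ)) (y₀, P) := hcd3.fderiv_right (by norm_num)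
  have hPsi : ContDiffAt ℝ 2 (fun y => Psi ρ P y) y₀ := by
    have a : ContDiffAt ℝ 2 (fun y : E2 => fderiv ℝ (sg ρ) (y, P)) y₀ :=
      ContDiffAt.comp (g := fderiv ℝ (sg ρ)) (f := fun y : E2 => (y, P)) y₀ hcd1 hline
    exact a.clm_comp contDiffAt_const
  have hv : ContDiffAt ℝ 2 v y₀ :=
    ((hPsi.clm_apply contDiffAt_const).smul contDiffAt_const).sub
      ((hPsi.clm_apply contDiffAt_const).smul contDiffAt_const)
  have hD : ContDiffAt ℝ 2 (fun y : E2 => D2 (sg ρ) (y, P)) y₀ :=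
    ContDiffAt.comp (g := D2 (sg ρ)) (f := fun y : E2 => (y, P)) y₀ hcd2 hline
  have hv2 : ContDiffAt ℝ 2 (fun y => ((0 : E2), v y)) y₀ := contDiffAt_const.prodMk hv
  let r : E2 → E2 →L[ℝ] ℝ := fun y =>
    (D2 (sg ρ) (y, P) (0, v y)).comp (ContinuousLinearMap.inl ℝ E2 E2)
  let b : E2 → ℝ := fun y => Psi ρ P y (A (v y)) - D2 (sg ρ) (y, P) (0, ξ P) (0, v y)
  refine ⟨r, b, ?_, ?_, ?_, ?_⟩
  · exact (hD.clm_apply hv2).clm_comp contDiffAt_const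
  · exact (hPsi.clm_apply (A.contDiff.contDiffAt.comp y₀ hv)).sub
      ((hD.clm_apply contDiffAt_const).clm_apply hv2)
  · have hyP : ∀ᶠ y in 𝓝 y₀, y ≠ P := (isOpen_ne).mem_nhds hne
    filter_upwards [isOpen_ball.mem_nhds hy₀, hyP] with y hy hyP
    have hyB' := hsB hy
    have hρ := h.pos y hyB' P hPB hyP
    have hvk : Psi ρ P y (v y) = 0 := by
      simp only [v, map_sub, map_smul, smul_eq_mul]
      ring
    have hlam : lam ρ y P (v y) = 0 := by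
      have := h.Psi_eq hyB' hPB hyP (v y)
      rw [hvk] at this
      exact (mul_eq_zero.1 this.symm).resolve_left hρ.ne'
    have e1 := hA y hy hyP (v y)
    rw [Dd_apply] at e1
    have e2 := h.D2_sg hyB' hPB hyP (ξ y, ξ P) (0, v y)
    have e3 : fderiv ℝ (unc ρ) (y, P) (0, v y) = 0 := hlam
    rw [e1, e3, mul_zero, add_zero, ← h.Psi_eq hyB' hPB hyP] at e2
    have e4 : ((ξ y, ξ P) : E2 × E2) = (ξ y, 0) + (0, ξ P) := by simp
    rw [e4, map_add] at e2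
    have e5 : (D2 (sg ρ) (y, P) (ξ y, 0) + D2 (sg ρ) (y, P) (0, ξ P)) (0, v y) =
      D2 (sg ρ) (y, P) (ξ y, 0) (0, v y) + D2 (sg ρ) (y, P) (0, ξ P) (0, v y) := rfl
    rw [e5, h.D2_sg_symm hyB' hPB (ξ y, 0) (0, v y)] at e2
    have e6 : r y (ξ y) = D2 (sg ρ) (y, P) (0, v y) (ξ y, 0) := rfl
    rw [e6]
    simp only [b]
    linarith
  · intro w hw
    have hw' : D2 (sg ρ) (y₀, P) (w, 0) (0, v y₀) = 0 := by
      rw [h.D2_sg_symm hyB hPB]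
      exact hw
    let l : E2 →L[ℝ] ℝ := (D2 (sg ρ) (y₀, P) (w, 0)).comp (ContinuousLinearMap.inr ℝ E2 E2)
    have hl : l (v y₀) = 0 := hw'
    have hl2 : Psi ρ P y₀ (sb 1) * l (sb 0) = Psi ρ P y₀ (sb 0) * l (sb 1) := by
      have : l (v y₀) = Psi ρ P y₀ (sb 1) * l (sb 0) - Psi ρ P y₀ (sb 0) * l (sb 1) := by
        simp only [v, map_sub, map_smul, smul_eq_mul]
      rw [hl] at this
      linarith
    have hex : ∀ (m : E2 →L[ℝ] ℝ) (u : E2), m u = u 0 * m (sb 0) + u 1 * m (sb 1) := by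
      intro m u
      conv_lhs => rw [sb_expand u]
      simp only [map_add, map_smul, smul_eq_mul]
    by_cases h0 : Psi ρ P y₀ (sb 0) = 0
    · have h1 : Psi ρ P y₀ (sb 1) ≠ 0 := by
        intro h1
        obtain ⟨θ, t1, t2⟩ := h.exists_grad hyB hPB hne
        have t3 : Psi ρ P y₀ θ = 0 := by rw [hex, h0, h1]; ring
        rw [h.Psi_eq hyB hPB hne, t1 θ, t2, mul_one] at t3
        exact (h.pos y₀ hyB P hPB hne).ne' t3
      refine ⟨l (sb 1) / Psi ρ P y₀ (sb 1), fun u => ?_⟩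
      change l u = _
      rw [hex l u, hex (Psi ρ P y₀) u, h0]
      have h2 : l (sb 0) = 0 := by
        rw [h0, zero_mul] at hl2
        exact (mul_eq_zero.1 hl2).resolve_left h1
      rw [h2]
      field_simp
      ring
    · refine ⟨l (sb 0) / Psi ρ P y₀ (sb 0), fun u => ?_⟩
      change l u = _
      rw [hex l u, hex (Psi ρ P y₀) u]
      field_simp
      linear_combination (- u 1) * hl2

/-- the kernel vectors of a row are multiples of the gradient -/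
lemma p6_ker {c : ℝ} (hc : 0 < c) {y₀ P : E2} (hyB : y₀ ∈ B) (hPB : P ∈ B)
    (hmono : ∀ w : E2, D2 (sg ρ) (y₀, P) (w, 0) (0, w) ≤ - c * ‖w‖ ^ 2)
    {e₁ e₂ : E2} (h11 : gm ρ y₀ e₁ e₁ = 1)
    (h22 : gm ρ y₀ e₂ e₂ = 1) (h12 : gm ρ y₀ e₁ e₂ = 0)
    (hsp : ∀ v, v = gm ρ y₀ e₁ v • e₁ + gm ρ y₀ e₂ v • e₂) {t : ℝ}
    (hPpsi : ∀ w, Psi ρ y₀ P w = t * gm ρ y₀ e₁ w) {w : E2} {k : ℝ}
    (hw : ∀ v, D2 (sg ρ) (y₀, P) (w, 0) (0, v) = k * Psi ρ P y₀ v) :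
    w = (k * t) • e₁ := by
  have h1 : ∀ v, Psi ρ P y₀ v = t * D2 (sg ρ) (y₀, P) (e₁, 0) (0, v) := by
    intro v
    have a := h.p6_star hyB hPB h11 h22 h12 hsp v
    rw [hPpsi, hPpsi, h11, h12, h.p6_fd_swap hPB hyB, h.p6_D2_swap hPB hyB,
      h.D2_sg_symm hyB hPB] at a
    rw [Psi_apply, a]
    ring
  have h2 : ∀ v, D2 (sg ρ) (y₀, P) (w - (k * t) • e₁, 0) (0, v) = 0 := by
    intro v
    have e : ((w - (k * t) • e₁, 0) : E2 × E2) = (w, 0) - (k * t) • (e₁, 0) := by simp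
    rw [e, map_sub, map_smul]
    change D2 (sg ρ) (y₀, P) (w, 0) (0, v) - (k * t) * D2 (sg ρ) (y₀, P) (e₁, 0) (0, v) = 0
    rw [hw v, h1 v]
    ring
  have h3 := hmono (w - (k * t) • e₁)
  rw [h2] at h3
  have h4 : ‖w - (k * t) • e₁‖ ^ 2 ≤ 0 := by
    by_contra hcon
    push Not at hcon
    have := mul_pos hc hcon
    linarith
  have h5 : ‖w - (k * t) • e₁‖ = 0 := by
    have := le_antisymm h4 (sq_nonneg _)
    exact pow_eq_zero_iff (two_ne_zero) |>.1 this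
  exact sub_eq_zero.1 (norm_eq_zero.1 h5)

end NiceLocal

/-- STEP 8. -/
theorem p6 : P6 := by
  intro ρ z s B h ξ η hF s₂ hs₂ hsB H
  obtain ⟨s₁, hs₁, hs₁B, c, hc, hmono⟩ := h.exists_mono
  refine ⟨min s₂ s₁, lt_min hs₂ hs₁, min_le_left _ _, fun y₀ hy₀ => ?_⟩
  have hy₂ : y₀ ∈ ball z s₂ := ball_subset_ball (min_le_left _ _) hy₀
  have hy₁ : y₀ ∈ ball z s₁ := ball_subset_ball (min_le_right _ _) hy₀
  have hyB : y₀ ∈ B := hsB hy₂
  obtain ⟨e₁, h11⟩ := h.exists_unit hyB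
  obtain ⟨e₂, h22, h12, hsp⟩ := h.exists_onb hyB h11
  have h21 : gm ρ y₀ e₂ e₁ = 0 := by rw [h.gm_symm hyB]; exact h12
  have hsp' : ∀ v, v = gm ρ y₀ e₂ v • e₂ + gm ρ y₀ e₁ v • e₁ := by
    intro v; rw [add_comm]; exact hsp v
  have hW : ball z (min s₂ s₁) ∈ 𝓝 y₀ := isOpen_ball.mem_nhds hy₀
  obtain ⟨t, ht, -, P, hPW, hPB, hPne, -, hPl, hPpsi⟩ := h.exists_ray hyB h11 hW one_pos
  obtain ⟨t', ht', -, Q, hQW, hQB, hQne, -, hQl, hQpsi⟩ := h.exists_ray hyB h22 hW one_pos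
  have hP₂ : P ∈ ball z s₂ := ball_subset_ball (min_le_left _ _) hPW
  have hP₁ : P ∈ ball z s₁ := ball_subset_ball (min_le_right _ _) hPW
  have hQ₂ : Q ∈ ball z s₂ := ball_subset_ball (min_le_left _ _) hQW
  have hQ₁ : Q ∈ ball z s₁ := ball_subset_ball (min_le_right _ _) hQW
  obtain ⟨A, hA⟩ := H P hP₂
  obtain ⟨A', hA'⟩ := H Q hQ₂
  obtain ⟨r, b, hr, hb, hrb, hker⟩ := h.p6_row hsB hP₂ hA hy₂ hPne.symm
  obtain ⟨r', b', hr', hb', hrb', hker'⟩ := h.p6_row hsB hQ₂ hA' hy₂ hQne.symm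
  have hξ : ContDiffAt ℝ 2 ξ y₀ := by
    refine p6_system (M := fun y => (r y).prod (r' y)) (b := fun y => (b y, b' y))
      (p6_prod hr hr') (hb.prodMk hb') ?_ ?_
    · intro w hw
      have hw1 : r y₀ w = 0 := congrArg Prod.fst hw
      have hw2 : r' y₀ w = 0 := congrArg Prod.snd hw
      obtain ⟨k, hk⟩ := hker w hw1
      obtain ⟨k', hk'⟩ := hker' w hw2
      have g1 := h.p6_ker hc hyB hPB (fun w => hmono y₀ hy₁ P hP₁ w) h11 h22 h12 hsp hPpsi hk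
      have g2 := h.p6_ker hc hyB hQB (fun w => hmono y₀ hy₁ Q hQ₁ w) h22 h11 h21 hsp' hQpsi hk'
      have g3 : gm ρ y₀ e₁ w = k * t := by rw [g1, gm_smul_right, h11, mul_one]
      have g4 : gm ρ y₀ e₁ w = 0 := by rw [g2, gm_smul_right, h12, mul_zero]
      rw [g1, ← g3, g4, zero_smul]
    · filter_upwards [hrb, hrb'] with y h1 h2
      exact Prod.ext h1 h2
  refine ⟨hξ, ?_⟩
  -- the second field
  have row : ∀ P : E2, P ∈ B → P ≠ y₀ →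
      ContDiffAt ℝ 2 (fun y => lam ρ P y) y₀ ∧
      ContDiffAt ℝ 2 (fun y => D2 (unc ρ) (P, y) (ξ P, ξ y) (ξ P, ξ y) -
        fderiv ℝ (unc ρ) (P, y) (η P, 0)) y₀ ∧
      ∀ᶠ y in 𝓝 y₀, lam ρ P y (η y) = D2 (unc ρ) (P, y) (ξ P, ξ y) (ξ P, ξ y) -
        fderiv ℝ (unc ρ) (P, y) (η P, 0) := by
    intro P hPB hPne
    have hline : ContDiffAt ℝ 2 (fun y : E2 => (P, y)) y₀ := by fun_prop
    have hcd1 : ContDiffAt ℝ 2 (fderiv ℝ (unc ρ)) (P, y₀) :=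
      contDiffAt_fderiv_of (m := 2) (n := 4) (by norm_num) (h.unc_cd hPB hyB hPne)
    have hcd3 : ContDiffAt ℝ 3 (fderiv ℝ (unc ρ)) (P, y₀) :=
      (h.unc_cd hPB hyB hPne).fderiv_right (by norm_num)
    have hcd2 : ContDiffAt ℝ 2 (D2 (unc ρ)) (P, y₀) := hcd3.fderiv_right (by norm_num)
    have a : ContDiffAt ℝ 2 (fun y : E2 => fderiv ℝ (unc ρ) (P, y)) y₀ :=
      ContDiffAt.comp (g := fderiv ℝ (unc ρ)) (f := fun y : E2 => (P, y)) y₀ hcd1 hline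
    have a2 : ContDiffAt ℝ 2 (fun y : E2 => D2 (unc ρ) (P, y)) y₀ :=
      ContDiffAt.comp (g := D2 (unc ρ)) (f := fun y : E2 => (P, y)) y₀ hcd2 hline
    have a3 : ContDiffAt ℝ 2 (fun y => (ξ P, ξ y)) y₀ := contDiffAt_const.prodMk hξ
    refine ⟨a.clm_comp contDiffAt_const, ?_, ?_⟩
    · exact ((a2.clm_apply a3).clm_apply a3).sub (a.clm_apply contDiffAt_const)
    · have hyp : ∀ᶠ y in 𝓝 y₀, y ≠ P := (isOpen_ne).mem_nhds hPne.symm
      filter_upwards [hyp, h.nhds hyB] with y hy hyB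
      rw [hF.eq P hPB y hyB hy.symm, ← map_sub, lam_apply]; simp
  obtain ⟨c1, c2, c3⟩ := row P hPB hPne
  obtain ⟨c1', c2', c3'⟩ := row Q hQB hQne
  refine p6_system (M := fun y => (lam ρ P y).prod (lam ρ Q y))
    (b := fun y => (D2 (unc ρ) (P, y) (ξ P, ξ y) (ξ P, ξ y) -
        fderiv ℝ (unc ρ) (P, y) (η P, 0), D2 (unc ρ) (Q, y) (ξ Q, ξ y) (ξ Q, ξ y) -
        fderiv ℝ (unc ρ) (Q, y) (η Q, 0))) (p6_prod c1 c1') (c2.prodMk c2') ?_ ?_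
  · intro w hw
    have hw1 : lam ρ P y₀ w = 0 := congrArg Prod.fst hw
    have hw2 : lam ρ Q y₀ w = 0 := congrArg Prod.snd hw
    rw [hPl] at hw1
    rw [hQl] at hw2
    rw [hsp w, hw1, hw2]
    simp
  · filter_upwards [c3, c3'] with y h1 h2
    exact Prod.ext h1 h2

end Pool.Agent.Helper4Nets
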