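import Pool.Agent.Helper52_Nets.Jets

/-!
Transition maps and the distance function in charts (MP_f059bd_gt, module M7).
-/

set_option autoImplicit false

open Set Filter Topology Metric
open scoped ContDiff

namespace Pool.Agent.Helper52Nets

open Pool.Agent.Helper4Nets

variable {S : Type} [MetricSpace S] (A : GoodAtlas S)

/-- transition map from the chart `i` to the chart `j` -/
noncomputable def tr (i j : A.ι) (q : E2) : E2 := A.c j ((A.c i).symm q)


variable {A}

theorem tr_apply {i j : A.ι} {X : S} (hi : X ∈ (A.c i).source) :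
    tr A i j (A.c i X) = A.c j X := by
  simp [tr, (A.c i).left_inv hi]

theorem tr_contDiffAt {i j : A.ι} {X : S} (hi : X ∈ (A.c i).source) (hj : X ∈ (A.c j).source) :
    ContDiffAt ℝ 4 (tr A i j) (A.c i X) := by
  have h := A.trans i j
  refine h.contDiffAt ?_
  have ho : IsOpen ((A.c i).target ∩ (A.c i).symm ⁻¹' (A.c j).source) :=
    (A.c i).isOpen_inter_preimage_symm (A.c j).open_source
  refine ho.mem_nhds ⟨(A.c i).map_source hi, ?_⟩
  simpa [(A.c i).left_inv hi] using hj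

theorem symm_tr_eventually {i j : A.ι} {X : S} (hi : X ∈ (A.c i).source)
    (hj : X ∈ (A.c j).source) :
    ∀ᶠ q in 𝓝 (A.c i X), (A.c j).symm (tr A i j q) = (A.c i).symm q := by
  have ho : IsOpen ((A.c i).target ∩ (A.c i).symm ⁻¹' (A.c j).source) :=
    (A.c i).isOpen_inter_preimage_symm (A.c j).open_source
  have hm : A.c i X ∈ (A.c i).target ∩ (A.c i).symm ⁻¹' (A.c j).source :=
    ⟨(A.c i).map_source hi, by simpa [(A.c i).left_inv hi] using hj⟩
  filter_upwards [ho.mem_nhds hm] with q hq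
  exact (A.c j).left_inv hq.2

theorem fderiv_tr_comp {i j l : A.ι} {X : S} (hi : X ∈ (A.c i).source)
    (hj : X ∈ (A.c j).source) (hl : X ∈ (A.c l).source) (v : E2) :
    fderiv ℝ (tr A i l) (A.c i X) v =
      fderiv ℝ (tr A j l) (A.c j X) (fderiv ℝ (tr A i j) (A.c i X) v) := by
  have hev : tr A i l =ᶠ[𝓝 (A.c i X)] tr A j l ∘ tr A i j := by
    filter_upwards [symm_tr_eventually hi hj] with q hq
    simp only [Function.comp, tr] at hq ⊢
    rw [hq]
  have h1 : DifferentiableAt ℝ (tr A i j) (A.c i X) :=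
    (tr_contDiffAt hi hj).differentiableAt (by norm_num)
  have h2 : DifferentiableAt ℝ (tr A j l) (tr A i j (A.c i X)) := by
    rw [tr_apply hi]
    exact (tr_contDiffAt hj hl).differentiableAt (by norm_num)
  rw [hev.fderiv_eq, fderiv_comp _ h2 h1, tr_apply hi]
  rfl

theorem fderiv_tr_self {i : A.ι} {X : S} (hi : X ∈ (A.c i).source) (v : E2) :
    fderiv ℝ (tr A i i) (A.c i X) v = v := by
  have hev : tr A i i =ᶠ[𝓝 (A.c i X)] id := by
    filter_upwards [(A.c i).open_target.mem_nhds ((A.c i).map_source hi)] with q hq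
    simp [tr, (A.c i).right_inv hq]
  rw [hev.fderiv_eq, fderiv_id]
  rfl

theorem ell_apply {i j : A.ι} {X Y : S} (hi : X ∈ (A.c i).source) (hj : Y ∈ (A.c j).source) :
    A.ell i j (A.c i X, A.c j Y) = dist X Y := by
  simp [GoodAtlas.ell, (A.c i).left_inv hi, (A.c j).left_inv hj]

theorem ell_contDiffAt {i j : A.ι} {X Y : S} (hi : X ∈ (A.c i).source)
    (hj : Y ∈ (A.c j).source) (h0 : 0 < dist X Y) (hr : dist X Y < A.r) :
    ContDiffAt ℝ 4 (A.ell i j) (A.c i X, A.c j Y) := by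
  refine A.smooth i j _ ((A.c i).map_source hi) _ ((A.c j).map_source hj) ?_ ?_
  · rwa [(A.c i).left_inv hi, (A.c j).left_inv hj]
  · rwa [(A.c i).left_inv hi, (A.c j).left_inv hj]

theorem ell_trans {i i' j j' : A.ι} {X Y : S} (hi : X ∈ (A.c i).source)
    (hi' : X ∈ (A.c i').source) (hj : Y ∈ (A.c j).source) (hj' : Y ∈ (A.c j').source) :
    A.ell i' j' =ᶠ[𝓝 (A.c i' X, A.c j' Y)] A.ell i j ∘ Prod.map (tr A i' i) (tr A j' j) := by
  have h1 : ∀ᶠ p in 𝓝 (A.c i' X, A.c j' Y), (A.c i).symm (tr A i' i p.1) = (A.c i').symm p.1 :=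
    (continuousAt_fst (p := (A.c i' X, A.c j' Y))).eventually (symm_tr_eventually hi' hi)
  have h2 : ∀ᶠ p in 𝓝 (A.c i' X, A.c j' Y), (A.c j).symm (tr A j' j p.2) = (A.c j').symm p.2 :=
    (continuousAt_snd (p := (A.c i' X, A.c j' Y))).eventually (symm_tr_eventually hj' hj)
  filter_upwards [h1, h2] with p hp1 hp2
  simp only [GoodAtlas.ell, Function.comp, Prod.map_fst, Prod.map_snd, hp1, hp2]

theorem fderiv_ell_trans {i i' j j' : A.ι} {X Y : S} (hi : X ∈ (A.c i).source)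
    (hi' : X ∈ (A.c i').source) (hj : Y ∈ (A.c j).source) (hj' : Y ∈ (A.c j').source)
    (h0 : 0 < dist X Y) (hr : dist X Y < A.r) (a b : E2) :
    fderiv ℝ (A.ell i' j') (A.c i' X, A.c j' Y) (a, b) =
      fderiv ℝ (A.ell i j) (A.c i X, A.c j Y)
        (fderiv ℝ (tr A i' i) (A.c i' X) a, fderiv ℝ (tr A j' j) (A.c j' Y) b) := by
  have e : Prod.map (tr A i' i) (tr A j' j) (A.c i' X, A.c j' Y) = (A.c i X, A.c j Y) := by
    simp [tr_apply hi', tr_apply hj']
  have h1 : DifferentiableAt ℝ (Prod.map (tr A i' i) (tr A j' j)) (A.c i' X, A.c j' Y) :=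
    (contDiffAt_prodMap' (tr_contDiffAt hi' hi) (tr_contDiffAt hj' hj)).differentiableAt
      (by norm_num)
  have h2 : DifferentiableAt ℝ (A.ell i j)
      (Prod.map (tr A i' i) (tr A j' j) (A.c i' X, A.c j' Y)) := by
    rw [e]
    exact (ell_contDiffAt hi hj h0 hr).differentiableAt (by norm_num)
  rw [(ell_trans hi hi' hj hj').fderiv_eq, fderiv_comp _ h2 h1, e,
    fderiv_prodMap_apply ((tr_contDiffAt hi' hi).differentiableAt (by norm_num))
      ((tr_contDiffAt hj' hj).differentiableAt (by norm_num))]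
  rfl

theorem D2_ell_trans {i i' j j' : A.ι} {X Y : S} (hi : X ∈ (A.c i).source)
    (hi' : X ∈ (A.c i').source) (hj : Y ∈ (A.c j).source) (hj' : Y ∈ (A.c j').source)
    (h0 : 0 < dist X Y) (hr : dist X Y < A.r) (a b : E2) :
    D2 (A.ell i' j') (A.c i' X, A.c j' Y) (a, b) (a, b) =
      D2 (A.ell i j) (A.c i X, A.c j Y)
        (fderiv ℝ (tr A i' i) (A.c i' X) a, fderiv ℝ (tr A j' j) (A.c j' Y) b)
        (fderiv ℝ (tr A i' i) (A.c i' X) a, fderiv ℝ (tr A j' j) (A.c j' Y) b) +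
      fderiv ℝ (A.ell i j) (A.c i X, A.c j Y)
        (fderiv ℝ (fderiv ℝ (tr A i' i)) (A.c i' X) a a,
          fderiv ℝ (fderiv ℝ (tr A j' j)) (A.c j' Y) b b) := by
  have e : Prod.map (tr A i' i) (tr A j' j) (A.c i' X, A.c j' Y) = (A.c i X, A.c j Y) := by
    simp [tr_apply hi', tr_apply hj']
  have g1 : ContDiffAt ℝ 2 (tr A i' i) (A.c i' X) := (tr_contDiffAt hi' hi).of_le (by norm_num)
  have g2 : ContDiffAt ℝ 2 (tr A j' j) (A.c j' Y) := (tr_contDiffAt hj' hj).of_le (by norm_num)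
  have h1 : ContDiffAt ℝ 2 (Prod.map (tr A i' i) (tr A j' j)) (A.c i' X, A.c j' Y) :=
    contDiffAt_prodMap' g1 g2
  have h2 : ContDiffAt ℝ 2 (A.ell i j)
      (Prod.map (tr A i' i) (tr A j' j) (A.c i' X, A.c j' Y)) := by
    rw [e]
    exact (ell_contDiffAt hi hj h0 hr).of_le (by norm_num)
  have h3 : D2 (A.ell i' j') (A.c i' X, A.c j' Y) =
      D2 (A.ell i j ∘ Prod.map (tr A i' i) (tr A j' j)) (A.c i' X, A.c j' Y) := by
    unfold D2
    exact (ell_trans hi hi' hj hj').fderiv.fderiv_eq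
  rw [h3, D2_comp h2 h1, e, fderiv2_prodMap_apply (p := (A.c i' X, A.c j' Y)) g1 g2,
    fderiv_prodMap_apply (p := (A.c i' X, A.c j' Y)) (g1.differentiableAt (by norm_num))
      (g2.differentiableAt (by norm_num))]
  rfl


end Pool.Agent.Helper52Nets
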