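import Pool.Agent.Helper4_Nets.Defs

/-!
Second order chain rule and transport of 2-jets between charts (MP_f059bd_gt, module M7).
-/

set_option autoImplicit false

open Set Filter Topology Metric
open scoped ContDiff

namespace Pool.Agent.Helper52Nets

open Pool.Agent.Helper4Nets

section Jets

variable {E E' : Type*} [NormedAddCommGroup E] [NormedSpace ℝ E] [NormedAddCommGroup E']
  [NormedSpace ℝ E']

theorem hasFDerivAt_fderiv_of_contDiffAt {F : Type*} [NormedAddCommGroup F] [NormedSpace ℝ F]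
    {f : E → F} {x : E} (h : ContDiffAt ℝ 2 f x) :
    HasFDerivAt (fderiv ℝ f) (fderiv ℝ (fderiv ℝ f) x) x := by
  have h1 : ContDiffAt ℝ 1 (fderiv ℝ f) x := h.fderiv_right (by norm_num)
  exact (h1.differentiableAt (by norm_num)).hasFDerivAt

theorem D2_comp {G : E' → ℝ} {T : E → E'} {P : E} (hG : ContDiffAt ℝ 2 G (T P))
    (hT : ContDiffAt ℝ 2 T P) (v w : E) :
    D2 (G ∘ T) P v w = D2 G (T P) (fderiv ℝ T P v) (fderiv ℝ T P w) +
      fderiv ℝ G (T P) (fderiv ℝ (fderiv ℝ T) P v w) := by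
  have hev : fderiv ℝ (G ∘ T) =ᶠ[𝓝 P] fun p => (fderiv ℝ G (T p)).comp (fderiv ℝ T p) := by
    have h1 : ∀ᶠ p in 𝓝 P, ContDiffAt ℝ 2 T p := hT.eventually (by decide)
    have h2 : ∀ᶠ p in 𝓝 P, ContDiffAt ℝ 2 G (T p) :=
      hT.continuousAt.eventually (hG.eventually (by decide))
    filter_upwards [h1, h2] with p hp1 hp2
    exact fderiv_comp p (hp2.differentiableAt (by norm_num)) (hp1.differentiableAt (by norm_num))
  have e1 : HasFDerivAt (fun p => fderiv ℝ G (T p))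
      ((fderiv ℝ (fderiv ℝ G) (T P)).comp (fderiv ℝ T P)) P :=
    (hasFDerivAt_fderiv_of_contDiffAt hG).comp P (hT.differentiableAt (by norm_num)).hasFDerivAt
  have e2 := hasFDerivAt_fderiv_of_contDiffAt hT
  have e3 := e1.clm_comp e2
  unfold D2
  rw [hev.fderiv_eq, e3.fderiv]
  simp [add_comm]

end Jets

theorem fderiv_prodMap_apply {τ₁ τ₂ : E2 → E2} {p : E2 × E2} (h1 : DifferentiableAt ℝ τ₁ p.1)
    (h2 : DifferentiableAt ℝ τ₂ p.2) :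
    fderiv ℝ (Prod.map τ₁ τ₂) p = (fderiv ℝ τ₁ p.1).prodMap (fderiv ℝ τ₂ p.2) :=
  (HasFDerivAt.prodMap p h1.hasFDerivAt h2.hasFDerivAt).fderiv

theorem contDiffAt_prodMap' {n : ℕ∞ω} {τ₁ τ₂ : E2 → E2} {p : E2 × E2}
    (h1 : ContDiffAt ℝ n τ₁ p.1) (h2 : ContDiffAt ℝ n τ₂ p.2) :
    ContDiffAt ℝ n (Prod.map τ₁ τ₂) p := ContDiffAt.prodMap' h1 h2

theorem fderiv2_prodMap_apply {τ₁ τ₂ : E2 → E2} {p : E2 × E2} (h1 : ContDiffAt ℝ 2 τ₁ p.1)
    (h2 : ContDiffAt ℝ 2 τ₂ p.2) (v w : E2 × E2) :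
    fderiv ℝ (fderiv ℝ (Prod.map τ₁ τ₂)) p v w =
      (fderiv ℝ (fderiv ℝ τ₁) p.1 v.1 w.1, fderiv ℝ (fderiv ℝ τ₂) p.2 v.2 w.2) := by
  have hev : fderiv ℝ (Prod.map τ₁ τ₂) =ᶠ[𝓝 p] fun q =>
      ContinuousLinearMap.prodMapL ℝ E2 E2 E2 E2 (fderiv ℝ τ₁ q.1, fderiv ℝ τ₂ q.2) := by
    have g1 : ∀ᶠ q in 𝓝 p, ContDiffAt ℝ 2 τ₁ q.1 :=
      continuousAt_fst.eventually (h1.eventually (by decide))
    have g2 : ∀ᶠ q in 𝓝 p, ContDiffAt ℝ 2 τ₂ q.2 :=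
      continuousAt_snd.eventually (h2.eventually (by decide))
    filter_upwards [g1, g2] with q hq1 hq2
    rw [fderiv_prodMap_apply (hq1.differentiableAt (by norm_num))
      (hq2.differentiableAt (by norm_num))]
    rfl
  have e1 : HasFDerivAt (fun q : E2 × E2 => fderiv ℝ τ₁ q.1)
      ((fderiv ℝ (fderiv ℝ τ₁) p.1).comp (ContinuousLinearMap.fst ℝ E2 E2)) p :=
    (hasFDerivAt_fderiv_of_contDiffAt h1).comp p hasFDerivAt_fst
  have e2 : HasFDerivAt (fun q : E2 × E2 => fderiv ℝ τ₂ q.2)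
      ((fderiv ℝ (fderiv ℝ τ₂) p.2).comp (ContinuousLinearMap.snd ℝ E2 E2)) p :=
    (hasFDerivAt_fderiv_of_contDiffAt h2).comp p hasFDerivAt_snd
  have e3 := (ContinuousLinearMap.prodMapL ℝ E2 E2 E2 E2).hasFDerivAt.comp p (e1.prodMk e2)
  rw [hev.fderiv_eq]
  have e4 : fderiv ℝ (fun q : E2 × E2 =>
      ContinuousLinearMap.prodMapL ℝ E2 E2 E2 E2 (fderiv ℝ τ₁ q.1, fderiv ℝ τ₂ q.2)) p = _ :=
    e3.fderiv
  rw [e4]
  rfl

end Pool.Agent.Helper52Nets
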