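import Pool.Agent.Helper52_Nets.Charts

/-!
Killing fields of a good atlas are continuous (MP_f059bd_gt, module M7).
-/

set_option autoImplicit false

open Set Filter Topology Metric
open scoped ContDiff

namespace Pool.Agent.Helper52Nets

open Pool.Agent.Helper4Nets

theorem continuousAt_of_linear_system {f : E2 → E2} {x₀ : E2} {M : E2 → E2 →L[ℝ] ℝ × ℝ}
    {b : E2 → ℝ × ℝ} (hM : ContinuousAt M x₀) (hb : ContinuousAt b x₀)
    (inj : Function.Injective (M x₀)) (h : ∀ᶠ y in 𝓝 x₀, M y (f y) = b y) :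
    ContinuousAt f x₀ := by
  have hdim : Module.finrank ℝ E2 = Module.finrank ℝ (ℝ × ℝ) := by simp
  let e : E2 ≃L[ℝ] ℝ × ℝ :=
    (LinearMap.linearEquivOfInjective (M x₀).toLinearMap inj hdim).toContinuousLinearEquiv
  have he : (e : E2 →L[ℝ] ℝ × ℝ) = M x₀ := by
    ext1 v
    rfl
  have hinv : ContinuousAt (ContinuousLinearMap.inverse : (E2 →L[ℝ] ℝ × ℝ) → _) (M x₀) := by
    have := (contDiffAt_map_inverse (𝕜 := ℝ) (n := 0) e).continuousAt
    rwa [he] at this
  have hrange : ∀ᶠ y in 𝓝 x₀, ∃ e' : E2 ≃L[ℝ] ℝ × ℝ, (e' : E2 →L[ℝ] ℝ × ℝ) = M y := by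
    have h1 := ContinuousLinearEquiv.nhds e
    rw [he] at h1
    filter_upwards [hM h1] with y hy
    exact hy
  have hev : ∀ᶠ y in 𝓝 x₀, f y = ContinuousLinearMap.inverse (M y) (b y) := by
    filter_upwards [h, hrange] with y hy ⟨e', he'⟩
    rw [← hy, ← he', ContinuousLinearMap.inverse_equiv]
    simp
  have h2 : ContinuousAt (fun y => ContinuousLinearMap.inverse (M y) (b y)) x₀ :=
    (hinv.comp hM).clm_apply hb
  exact h2.congr (hev.mono fun y hy => hy.symm)

variable {S : Type} [MetricSpace S] {A : GoodAtlas S}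

theorem nontriv_proj (l : Fin 2) :
    (EuclideanSpace.proj l : E2 →L[ℝ] ℝ) ≠ 0 := by
  intro h
  have h1 := congrArg (fun T : E2 →L[ℝ] ℝ => T (EuclideanSpace.single l (1 : ℝ))) h
  simp at h1

/-- Killing fields are continuous in every chart. -/
theorem killing_continuousAt (hD : Directions) {k : A.ι → E2 → E2} (hk : k ∈ A.Killing)
    {i : A.ι} {X : S} (hi : X ∈ (A.c i).source) : ContinuousAt (k i) (A.c i X) := by
  obtain ⟨j, hj, s, B, hBt, hBr, N⟩ := A.nice X
  have hmB : A.c j X ∈ B := N.ball_sub (mem_ball_self N.s_pos)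
  have key : ∀ l : Fin 2, ∃ P : S, P ∈ (A.c j).source ∧ 0 < dist P X ∧ dist P X < A.r ∧
      ∃ t > 0, ∀ w, fderiv ℝ (A.ell j j) (A.c j P, A.c j X) (0, w) =
        t * (EuclideanSpace.proj l : E2 →L[ℝ] ℝ) w := by
    intro l
    obtain ⟨p, hpB, hpm, -, t, ht, hl⟩ := hD _ _ s B N (A.c j X) hmB (EuclideanSpace.proj l)
      (nontriv_proj l) 1 one_pos
    have hpt := hBt hpB
    have hP : (A.c j).symm p ∈ (A.c j).source := (A.c j).map_target hpt
    have hX : (A.c j).symm (A.c j X) = X := (A.c j).left_inv hj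
    refine ⟨(A.c j).symm p, hP, ?_, ?_, t, ht, ?_⟩
    · apply dist_pos.2
      intro h
      apply hpm
      rw [← (A.c j).right_inv hpt, h]
    · have := hBr p hpB _ hmB
      rwa [hX] at this
    · intro w
      rw [(A.c j).right_inv hpt]
      exact hl w
  choose P hPs hP0 hPr t ht hl using key
  -- the coefficients
  let M : E2 → E2 →L[ℝ] ℝ × ℝ := fun y =>
    ((fderiv ℝ (A.ell j i) (A.c j (P 0), y)).comp (ContinuousLinearMap.inr ℝ E2 E2)).prod
      ((fderiv ℝ (A.ell j i) (A.c j (P 1), y)).comp (ContinuousLinearMap.inr ℝ E2 E2))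
  let b : E2 → ℝ × ℝ := fun y =>
    (- fderiv ℝ (A.ell j i) (A.c j (P 0), y) (k j (A.c j (P 0)), 0),
     - fderiv ℝ (A.ell j i) (A.c j (P 1), y) (k j (A.c j (P 1)), 0))
  have hc : ∀ l : Fin 2, ContinuousAt (fun y => fderiv ℝ (A.ell j i) (A.c j (P l), y))
      (A.c i X) := by
    intro l
    have h1 : ContDiffAt ℝ 1 (fderiv ℝ (A.ell j i)) (A.c j (P l), A.c i X) :=
      (ell_contDiffAt (hPs l) hi (hP0 l) (hPr l)).fderiv_right (by norm_num)
    have h2 : ContinuousAt (fun y : E2 => (A.c j (P l), y)) (A.c i X) := by fun_prop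
    exact h1.continuousAt.comp' h2
  refine continuousAt_of_linear_system (M := M) (b := b) ?_ ?_ ?_ ?_
  · have h1 : ∀ l : Fin 2, ContinuousAt (fun y => (fderiv ℝ (A.ell j i) (A.c j (P l), y)).comp
        (ContinuousLinearMap.inr ℝ E2 E2)) (A.c i X) := fun l => (hc l).clm_comp continuousAt_const
    have h2 : Continuous (fun q : (E2 →L[ℝ] ℝ) × (E2 →L[ℝ] ℝ) => q.1.prod q.2) :=
      (ContinuousLinearMap.prodₗᵢ (𝕜 := ℝ) (E := E2) (F := ℝ) (G := ℝ) ℝ).continuous
    exact ContinuousAt.comp' h2.continuousAt ((h1 0).prodMk (h1 1))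
  · exact ((hc 0).clm_apply continuousAt_const).neg.prodMk
      ((hc 1).clm_apply continuousAt_const).neg
  · have hval : ∀ (l : Fin 2) (w : E2), fderiv ℝ (A.ell j i) (A.c j (P l), A.c i X) (0, w) =
        t l * (EuclideanSpace.proj l : E2 →L[ℝ] ℝ) (fderiv ℝ (tr A i j) (A.c i X) w) := by
      intro l w
      rw [fderiv_ell_trans (i := j) (j := j) (hPs l) (hPs l) hj hi (hP0 l) (hPr l), map_zero,
        hl l]
    have hM0 : ∀ w, M (A.c i X) w = 0 → w = 0 := by
      intro w hw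
      have e0 : fderiv ℝ (A.ell j i) (A.c j (P 0), A.c i X) (0, w) = 0 := congrArg Prod.fst hw
      have e1 : fderiv ℝ (A.ell j i) (A.c j (P 1), A.c i X) (0, w) = 0 := congrArg Prod.snd hw
      rw [hval] at e0 e1
      have h0 := (mul_eq_zero.1 e0).resolve_left (ht 0).ne'
      have h1 := (mul_eq_zero.1 e1).resolve_left (ht 1).ne'
      have h2 : fderiv ℝ (tr A i j) (A.c i X) w = 0 := by
        ext l
        fin_cases l
        · exact h0
        · exact h1
      have h3 := fderiv_tr_comp hi hj hi w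
      rw [h2, map_zero, fderiv_tr_self hi] at h3
      exact h3
    exact (injective_iff_map_eq_zero (M (A.c i X))).2 hM0
  · have hev : ∀ l : Fin 2, ∀ᶠ y in 𝓝 (A.c i X),
        fderiv ℝ (A.ell j i) (A.c j (P l), y) (0, k i y) =
          - fderiv ℝ (A.ell j i) (A.c j (P l), y) (k j (A.c j (P l)), 0) := by
      intro l
      have h1 : ContinuousAt (fun y => A.ell j i (A.c j (P l), y)) (A.c i X) :=
        (ell_contDiffAt (hPs l) hi (hP0 l) (hPr l)).continuousAt.comp' (by fun_prop)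
      have h2 : A.ell j i (A.c j (P l), A.c i X) = dist (P l) X := ell_apply (hPs l) hi
      have h3 : ∀ᶠ y in 𝓝 (A.c i X), A.ell j i (A.c j (P l), y) ∈ Ioo 0 A.r :=
        h1.eventually (isOpen_Ioo.mem_nhds (by
          show A.ell j i (A.c j (P l), A.c i X) ∈ Ioo 0 A.r
          rw [h2]; exact ⟨hP0 l, hPr l⟩))
      filter_upwards [h3, (A.c i).open_target.mem_nhds ((A.c i).map_source hi)] with y hy hyt
      have h4 := hk j i (A.c j (P l)) ((A.c j).map_source (hPs l)) y hyt hy.1 hy.2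
      have h5 : (k j (A.c j (P l)), k i y) = (k j (A.c j (P l)), (0:E2)) + ((0:E2), k i y) := by
        simp
      rw [h5, map_add] at h4
      linarith
    filter_upwards [hev 0, hev 1] with y h0 h1
    exact Prod.ext h0 h1

end Pool.Agent.Helper52Nets
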