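import Pool.Agent.Helper52_Nets.Charts

/-!
From local rigidity to Killing fields (MP_f059bd_gt, module M7).
-/

set_option autoImplicit false

open Set Filter Topology Metric
open scoped ContDiff

namespace Pool.Agent.Helper52Nets

open Pool.Agent.Helper4Nets

variable {S : Type} [MetricSpace S] {A : GoodAtlas S}

/-- compatibility of a field under changes of charts -/
def Compat (k : A.ι → E2 → E2) : Prop :=
  ∀ (X : S) (i j : A.ι), X ∈ (A.c i).source → X ∈ (A.c j).source →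
    k j (A.c j X) = fderiv ℝ (tr A i j) (A.c i X) (k i (A.c i X))

/-- a chart at `X` -/
noncomputable def ch (A : GoodAtlas S) (X : S) : A.ι := (A.K_cover X).choose

theorem ch_mem (A : GoodAtlas S) (X : S) : X ∈ (A.c (ch A X)).source :=
  A.K_sub _ (A.K_cover X).choose_spec

/-- first variation of the distance between two points along a field -/
noncomputable def uu (k : A.ι → E2 → E2) (X Y : S) : ℝ :=
  fderiv ℝ (A.ell (ch A X) (ch A Y)) (A.c (ch A X) X, A.c (ch A Y) Y)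
    (k (ch A X) (A.c (ch A X) X), k (ch A Y) (A.c (ch A Y) Y))

theorem uu_eq {k : A.ι → E2 → E2} (hk : Compat k) {i j : A.ι} {X Y : S}
    (hi : X ∈ (A.c i).source) (hj : Y ∈ (A.c j).source) (h0 : 0 < dist X Y)
    (hr : dist X Y < A.r) :
    fderiv ℝ (A.ell i j) (A.c i X, A.c j Y) (k i (A.c i X), k j (A.c j Y)) = uu k X Y := by
  rw [fderiv_ell_trans (ch_mem A X) hi (ch_mem A Y) hj h0 hr,
    ← hk X i (ch A X) hi (ch_mem A X), ← hk Y j (ch A Y) hj (ch_mem A Y)]
  rfl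

theorem mem_killing_of_uu {k : A.ι → E2 → E2} (hk : Compat k)
    (h : ∀ X Y : S, 0 < dist X Y → dist X Y < A.r → uu k X Y = 0) : k ∈ A.Killing := by
  intro i j x hx y hy h0 hr
  have hX := (A.c i).map_target hx
  have hY := (A.c j).map_target hy
  have := uu_eq hk hX hY h0 hr
  rw [(A.c i).right_inv hx, (A.c j).right_inv hy] at this
  rw [this]
  exact h _ _ h0 hr

theorem exists_ne_mem_open {O : Set S} (A : GoodAtlas S) (hO : IsOpen O) {z : S} (hz : z ∈ O) :
    ∃ X ∈ O, X ≠ z := by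
  have hi := ch_mem A z
  set i := ch A z
  have ho : IsOpen ((A.c i).target ∩ (A.c i).symm ⁻¹' O) := (A.c i).isOpen_inter_preimage_symm hO
  have hm : A.c i z ∈ (A.c i).target ∩ (A.c i).symm ⁻¹' O :=
    ⟨(A.c i).map_source hi, by simpa [(A.c i).left_inv hi] using hz⟩
  have h1 : ∀ᶠ q in 𝓝[≠] (A.c i z), q ∈ (A.c i).target ∩ (A.c i).symm ⁻¹' O :=
    mem_nhdsWithin_of_mem_nhds (ho.mem_nhds hm)
  have h2 : ∀ᶠ q in 𝓝[≠] (A.c i z), q ≠ A.c i z := self_mem_nhdsWithin
  obtain ⟨q, hq1, hq2⟩ := (h1.and h2).exists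
  refine ⟨(A.c i).symm q, hq1.2, ?_⟩
  intro h
  apply hq2
  rw [← h, (A.c i).right_inv hq1.1]

/-- Step 4a: local rigidity on the surface. -/
theorem local_rigid (hL : LocalRigidity) {k h : A.ι → E2 → E2} (hk : Compat k)
    (bdd : ∀ i, ∀ x ∈ (A.c i).target, ∃ C, ∀ᶠ y in 𝓝 x, ‖k i y‖ ≤ C ∧ ‖h i y‖ ≤ C)
    (rel : ∀ i j X Y, X ∈ (A.c i).source → Y ∈ (A.c j).source → 0 < dist X Y →
      dist X Y < A.r →
      D2 (A.ell i j) (A.c i X, A.c j Y) (k i (A.c i X), k j (A.c j Y))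
        (k i (A.c i X), k j (A.c j Y)) =
      fderiv ℝ (A.ell i j) (A.c i X, A.c j Y) (h i (A.c i X), h j (A.c j Y))) (z : S) :
    ∃ W : Set S, IsOpen W ∧ z ∈ W ∧ ∃ a : ℝ, ∀ X ∈ W, ∀ Y ∈ W, X ≠ Y →
      dist X Y < A.r ∧ uu k X Y = a * dist X Y := by
  obtain ⟨j, hj, s, B, hBt, hBr, N⟩ := A.nice z
  have hmB : A.c j z ∈ B := N.ball_sub (mem_ball_self N.s_pos)
  obtain ⟨s', hs', a, ha⟩ := hL _ _ s B N (k j) (h j) (fun x hx => bdd j x (hBt hx)) (by
    intro x hx y hy hxy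
    have hX := (A.c j).map_target (hBt hx)
    have hY := (A.c j).map_target (hBt hy)
    have hne : (A.c j).symm x ≠ (A.c j).symm y := by
      intro h
      apply hxy
      rw [← (A.c j).right_inv (hBt hx), h, (A.c j).right_inv (hBt hy)]
    have := rel j j _ _ hX hY (dist_pos.2 hne) (hBr x hx y hy)
    rw [(A.c j).right_inv (hBt hx), (A.c j).right_inv (hBt hy)] at this
    exact this)
  refine ⟨(A.c j).source ∩ (A.c j) ⁻¹' (ball (A.c j z) s' ∩ B),
    (A.c j).isOpen_inter_preimage (isOpen_ball.inter N.isOpen),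
    ⟨hj, mem_ball_self hs', hmB⟩, a, ?_⟩
  rintro X ⟨hXs, hXb, hXB⟩ Y ⟨hYs, hYb, hYB⟩ hne
  have hr : dist X Y < A.r := by
    have := hBr _ hXB _ hYB
    rwa [(A.c j).left_inv hXs, (A.c j).left_inv hYs] at this
  refine ⟨hr, ?_⟩
  have hne' : A.c j X ≠ A.c j Y := fun h => hne ((A.c j).injOn hXs hYs h)
  have h1 := ha _ hXb _ hYb hne'
  have h2 := uu_eq hk hXs hYs (dist_pos.2 hne) hr
  rw [← h2]
  simp only [(A.c j).left_inv hXs, (A.c j).left_inv hYs] at h1
  exact h1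

/-- Step 4b: the factor is globally constant. -/
theorem const_factor [ConnectedSpace S] {k : A.ι → E2 → E2}
    (h : ∀ z : S, ∃ W : Set S, IsOpen W ∧ z ∈ W ∧ ∃ a : ℝ, ∀ X ∈ W, ∀ Y ∈ W, X ≠ Y →
      dist X Y < A.r ∧ uu k X Y = a * dist X Y) :
    ∃ a : ℝ, ∀ z : S, ∃ W : Set S, IsOpen W ∧ z ∈ W ∧ ∀ X ∈ W, ∀ Y ∈ W, X ≠ Y →
      dist X Y < A.r ∧ uu k X Y = a * dist X Y := by
  choose W hWo hW a ha using h
  have hloc : IsLocallyConstant a := by
    rw [IsLocallyConstant.iff_eventually_eq]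
    intro z
    filter_upwards [(hWo z).mem_nhds (hW z)] with z' hz'
    obtain ⟨X, hX, hne⟩ := exists_ne_mem_open A ((hWo z).inter (hWo z')) ⟨hz', hW z'⟩
    have h1 := (ha z X hX.1 z' hz' hne).2
    have h2 := (ha z' X hX.2 z' (hW z') hne).2
    rw [h1] at h2
    exact (mul_right_cancel₀ (dist_pos.2 hne).ne' h2).symm
  obtain ⟨a0, ha0⟩ := hloc.exists_eq_const
  refine ⟨a0, fun z => ⟨W z, hWo z, hW z, fun X hX Y hY hne => ?_⟩⟩
  have := ha z X hX Y hY hne
  rw [ha0] at this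
  exact this

theorem lebesgue_factor [CompactSpace S] {k : A.ι → E2 → E2} {a : ℝ}
    (h : ∀ z : S, ∃ W : Set S, IsOpen W ∧ z ∈ W ∧ ∀ X ∈ W, ∀ Y ∈ W, X ≠ Y →
      dist X Y < A.r ∧ uu k X Y = a * dist X Y) :
    ∃ δ > 0, δ ≤ A.r ∧ ∀ X Y : S, X ≠ Y → dist X Y < δ → uu k X Y = a * dist X Y := by
  choose W hWo hW ha using h
  obtain ⟨δ, hδ, hl⟩ := lebesgue_number_lemma_of_metric (s := (univ : Set S)) isCompact_univ hWo
    (fun z _ => mem_iUnion.2 ⟨z, hW z⟩)
  refine ⟨min δ A.r, lt_min hδ A.r_pos, min_le_right _ _, ?_⟩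
  intro X Y hne hd
  obtain ⟨z, hz⟩ := hl X (mem_univ X)
  have hY : Y ∈ ball X δ := by
    rw [mem_ball, dist_comm]
    exact hd.trans_le (min_le_left _ _)
  exact (ha z X (hz (mem_ball_self hδ)) Y (hz hY) hne).2

theorem ell_swap (i j : A.ι) (p q : E2) : A.ell i j (p, q) = A.ell j i (q, p) := dist_comm _ _

theorem fderiv_ell_swap {i j : A.ι} {X Y : S} (hi : X ∈ (A.c i).source)
    (hj : Y ∈ (A.c j).source) (h0 : 0 < dist X Y) (hr : dist X Y < A.r) (a b : E2) :
    fderiv ℝ (A.ell i j) (A.c i X, A.c j Y) (a, b) =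
      fderiv ℝ (A.ell j i) (A.c j Y, A.c i X) (b, a) := by
  have h1 : A.ell i j = A.ell j i ∘ (ContinuousLinearEquiv.prodComm ℝ E2 E2) := by
    funext p
    exact ell_swap i j p.1 p.2
  have h2 : DifferentiableAt ℝ (A.ell j i)
      ((ContinuousLinearEquiv.prodComm ℝ E2 E2) (A.c i X, A.c j Y)) :=
    (ell_contDiffAt hj hi (by rwa [dist_comm]) (by rwa [dist_comm])).differentiableAt
      (by norm_num)
  rw [h1, fderiv_comp _ h2 (ContinuousLinearEquiv.differentiableAt _),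
    ContinuousLinearEquiv.fderiv]
  rfl

/-- Step 4d: the factor is zero. -/
theorem factor_zero (hE : ExistsEquilibrium A) {k : A.ι → E2 → E2} (hk : Compat k) {a δ : ℝ}
    (hδ : 0 < δ) (hδr : δ ≤ A.r)
    (h : ∀ X Y : S, X ≠ Y → dist X Y < δ → uu k X Y = a * dist X Y) : a = 0 := by
  obtain ⟨C, w, -, hsym, hpos, hzero, ⟨a0, b0, he0⟩, heq⟩ := hE 1 one_pos δ hδ hδr
  have hs : ∀ a, C.x a ∈ (A.c (C.i a)).source := fun a => A.K_sub _ (C.mem a)
  let D : Fin C.n → Fin C.n → E2 × E2 → ℝ := fun a b v =>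
    fderiv ℝ (A.ell (C.i a) (C.i b)) (C.q a, C.q b) v
  let κ : Fin C.n → E2 := C.restr k
  have h1 : ∑ a, ∑ b, w a b * D a b (κ a, 0) = 0 := Finset.sum_eq_zero fun a _ => heq a (κ a)
  have h2 : ∀ a b, w a b * D b a (0, κ a) = w a b * D a b (κ a, 0) := by
    intro a b
    by_cases he : C.edge δ a b
    · have h0 : 0 < dist (C.x a) (C.x b) := dist_pos.2 (fun h => he.1 (C.inj h))
      have := fderiv_ell_swap (hs a) (hs b) h0 (he.2.trans_le hδr) (κ a) 0
      simp only [D, Config.q]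
      rw [this]
    · rw [hzero a b he]
      ring
  have h3 : ∑ a, ∑ b, w a b * D b a (0, κ a) = 0 := by
    rw [← h1]
    exact Finset.sum_congr rfl fun a _ => Finset.sum_congr rfl fun b _ => h2 a b
  have h4 : ∑ a, ∑ b, w a b * D a b (0, κ b) = 0 := by
    rw [Finset.sum_comm, ← h3]
    exact Finset.sum_congr rfl fun a _ => Finset.sum_congr rfl fun b _ => by rw [hsym b a]
  have h5 : ∑ a, ∑ b, w a b * D a b (κ a, κ b) = 0 := by
    have : ∀ a b, w a b * D a b (κ a, κ b) = w a b * D a b (κ a, 0) + w a b * D a b (0, κ b) := by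
      intro a b
      rw [← mul_add]
      congr 1
      have e : (κ a, κ b) = (κ a, (0:E2)) + ((0:E2), κ b) := by simp
      simp only [D]
      rw [e, map_add]
    simp only [this, Finset.sum_add_distrib]
    rw [h1, h4, add_zero]
  have h6 : ∀ a' b', w a' b' * D a' b' (κ a', κ b') = a * (w a' b' * dist (C.x a') (C.x b')) := by
    intro a' b'
    by_cases he : C.edge δ a' b'
    · have hne : C.x a' ≠ C.x b' := fun h => he.1 (C.inj h)
      have h0 : 0 < dist (C.x a') (C.x b') := dist_pos.2 hne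
      have e1 : D a' b' (κ a', κ b') = uu k (C.x a') (C.x b') :=
        uu_eq hk (hs a') (hs b') h0 (he.2.trans_le hδr)
      rw [e1, h _ _ hne he.2]
      ring
    · rw [hzero a' b' he]
      ring
  simp only [h6, ← Finset.mul_sum] at h5
  have h7 : 0 < ∑ a', ∑ b', w a' b' * dist (C.x a') (C.x b') := by
    have hnn : ∀ a' b', 0 ≤ w a' b' * dist (C.x a') (C.x b') := by
      intro a' b'
      by_cases he : C.edge δ a' b'
      · exact mul_nonneg (hpos _ _ he).le dist_nonneg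
      · rw [hzero a' b' he, zero_mul]
    refine Finset.sum_pos' (fun a' _ => Finset.sum_nonneg fun b' _ => hnn a' b')
      ⟨a0, Finset.mem_univ _, Finset.sum_pos' (fun b' _ => hnn a0 b') ⟨b0, Finset.mem_univ _, ?_⟩⟩
    exact mul_pos (hpos _ _ he0) (dist_pos.2 (fun h => he0.1 (C.inj h)))
  exact (mul_eq_zero.1 h5).resolve_right h7.ne'

/-- Step 4e: additivity at midpoints. -/
theorem uu_mid {k : A.ι → E2 → E2} {X M Y : S}
    (h1 : 0 < dist X M) (h2 : 0 < dist M Y) (h3 : 0 < dist X Y) (h1' : dist X M < A.r)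
    (h2' : dist M Y < A.r) (h3' : dist X Y < A.r) (h : dist X M + dist M Y = dist X Y) :
    uu k X Y = uu k X M + uu k M Y := by
  -- the curve through the three points
  let κ : S → E2 := fun X => k (ch A X) (A.c (ch A X) X)
  let q : S → E2 := fun X => A.c (ch A X) X
  have hder : ∀ X Y : S, 0 < dist X Y → dist X Y < A.r →
      HasDerivAt (fun t : ℝ => A.ell (ch A X) (ch A Y) (q X + t • κ X, q Y + t • κ Y))
        (uu k X Y) 0 := by
    intro X Y h0 hr
    have hd : HasFDerivAt (A.ell (ch A X) (ch A Y))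
        (fderiv ℝ (A.ell (ch A X) (ch A Y)) (q X, q Y)) (q X, q Y) :=
      ((ell_contDiffAt (ch_mem A X) (ch_mem A Y) h0 hr).differentiableAt
        (by norm_num)).hasFDerivAt
    have hline : ∀ Z : S, HasDerivAt (fun t : ℝ => q Z + t • κ Z) (κ Z) 0 := by
      intro Z
      have := ((hasDerivAt_id (0:ℝ)).smul_const (κ Z)).const_add (q Z)
      simpa using this
    have hp := (hline X).prodMk (hline Y)
    have hd' : HasFDerivAt (A.ell (ch A X) (ch A Y))
        (fderiv ℝ (A.ell (ch A X) (ch A Y)) (q X, q Y))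
        ((q X + (0:ℝ) • κ X, q Y + (0:ℝ) • κ Y)) := by simpa using hd
    exact HasFDerivAt.comp_hasDerivAt (0:ℝ) hd' hp
  let g : ℝ → ℝ := fun t =>
    A.ell (ch A X) (ch A M) (q X + t • κ X, q M + t • κ M) +
    A.ell (ch A M) (ch A Y) (q M + t • κ M, q Y + t • κ Y) -
    A.ell (ch A X) (ch A Y) (q X + t • κ X, q Y + t • κ Y)
  have hg : HasDerivAt g (uu k X M + uu k M Y - uu k X Y) 0 :=
    ((hder X M h1 h1').add (hder M Y h2 h2')).sub (hder X Y h3 h3')
  have hg0 : g 0 = 0 := by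
    simp only [g, zero_smul, add_zero, q]
    rw [ell_apply (ch_mem A X) (ch_mem A M), ell_apply (ch_mem A M) (ch_mem A Y),
      ell_apply (ch_mem A X) (ch_mem A Y)]
    linarith
  have hmin : IsLocalMin g 0 := by
    refine Eventually.of_forall fun t => ?_
    rw [hg0]
    simp only [g, GoodAtlas.ell]
    have := dist_triangle ((A.c (ch A X)).symm (q X + t • κ X))
      ((A.c (ch A M)).symm (q M + t • κ M)) ((A.c (ch A Y)).symm (q Y + t • κ Y))
    linarith
  have := hmin.hasDerivAt_eq_zero hg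
  linarith

/-- Conclusion of step 4. -/
theorem killing_of_rel [CompactSpace S] [ConnectedSpace S] (hL : LocalRigidity)
    (hE : ExistsEquilibrium A) {k h : A.ι → E2 → E2} (hk : Compat k)
    (bdd : ∀ i, ∀ x ∈ (A.c i).target, ∃ C, ∀ᶠ y in 𝓝 x, ‖k i y‖ ≤ C ∧ ‖h i y‖ ≤ C)
    (rel : ∀ i j X Y, X ∈ (A.c i).source → Y ∈ (A.c j).source → 0 < dist X Y →
      dist X Y < A.r →
      D2 (A.ell i j) (A.c i X, A.c j Y) (k i (A.c i X), k j (A.c j Y))
        (k i (A.c i X), k j (A.c j Y)) =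
      fderiv ℝ (A.ell i j) (A.c i X, A.c j Y) (h i (A.c i X), h j (A.c j Y))) :
    k ∈ A.Killing := by
  obtain ⟨a, ha⟩ := const_factor (local_rigid hL hk bdd rel)
  obtain ⟨δ, hδ, hδr, hf⟩ := lebesgue_factor ha
  have ha0 := factor_zero hE hk hδ hδr hf
  subst ha0
  have hsmall : ∀ n : ℕ, ∀ X Y : S, 0 < dist X Y → dist X Y < A.r → dist X Y < δ * 2 ^ n →
      uu k X Y = 0 := by
    intro n
    induction n with
    | zero =>
      intro X Y h0 hr hd
      rw [hf X Y (dist_pos.1 h0) (by simpa using hd), zero_mul]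
    | succ n ih =>
      intro X Y h0 hr hd
      obtain ⟨m, hm1, hm2⟩ := A.mid X Y hr
      have e1 : 0 < dist X m := by rw [hm1]; linarith
      have e2 : 0 < dist m Y := by rw [hm2]; linarith
      have e3 : dist X m < A.r := by rw [hm1]; linarith
      have e4 : dist m Y < A.r := by rw [hm2]; linarith
      have hd' : dist X Y < δ * 2 ^ n * 2 := by rw [pow_succ] at hd; linarith
      rw [uu_mid e1 e2 h0 e3 e4 hr (by rw [hm1, hm2]; ring),
        ih X m e1 e3 (by rw [hm1]; linarith), ih m Y e2 e4 (by rw [hm2]; linarith), add_zero]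
  refine mem_killing_of_uu hk fun X Y h0 hr => ?_
  obtain ⟨n, hn⟩ := pow_unbounded_of_one_lt (A.r / δ) (one_lt_two)
  refine hsmall n X Y h0 hr (hr.trans ?_)
  rw [div_lt_iff₀ hδ] at hn
  linarith

end Pool.Agent.Helper52Nets
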