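import Pool.Agent.Helper52_Nets.KillingCont
import Pool.Agent.Helper52_Nets.Rigid

/-!
Limits of fields on finer and finer configurations (MP_f059bd_gt, module M7).
-/

set_option autoImplicit false

open Set Filter Topology Metric
open scoped ContDiff

namespace Pool.Agent.Helper52Nets

open Pool.Agent.Helper4Nets

variable {S : Type} [MetricSpace S] {A : GoodAtlas S}

/-- A limit of a sequence of fields on configurations along the ultrafilter `U`. -/
structure Lim (C : ℕ → Config A) (U : Ultrafilter ℕ) (x : ∀ n, Fin (C n).n → E2) where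
  v : S → ∀ n, Fin (C n).n
  i0 : S → A.ι
  ξ0 : S → E2
  hv : ∀ X, Tendsto (fun n => (C n).x (v X n)) U (𝓝 X)
  hi : ∀ X, ∀ᶠ n in (U : Filter ℕ), (C n).i (v X n) = i0 X
  hξ : ∀ X, Tendsto (fun n => x n (v X n)) U (𝓝 (ξ0 X))

namespace Lim

variable {C : ℕ → Config A} {U : Ultrafilter ℕ} {x : ∀ n, Fin (C n).n → E2} (L : Lim C U x)

theorem memK (X : S) : X ∈ A.K (L.i0 X) := by
  refine (A.K_closed (L.i0 X)).mem_of_tendsto (L.hv X) ?_
  filter_upwards [L.hi X] with n hn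
  rw [← hn]
  exact (C n).mem _

theorem src (X : S) : X ∈ (A.c (L.i0 X)).source := A.K_sub _ (L.memK X)

/-- the limit field -/
noncomputable def fld : A.ι → E2 → E2 := fun j q =>
  fderiv ℝ (tr A (L.i0 ((A.c j).symm q)) j)
    (A.c (L.i0 ((A.c j).symm q)) ((A.c j).symm q)) (L.ξ0 ((A.c j).symm q))

/-- the second component of the limit of 2-jets -/
noncomputable def fld2 (η0 : S → E2) : A.ι → E2 → E2 := fun j q =>
  fderiv ℝ (tr A (L.i0 ((A.c j).symm q)) j)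
    (A.c (L.i0 ((A.c j).symm q)) ((A.c j).symm q)) (η0 ((A.c j).symm q)) -
  fderiv ℝ (fderiv ℝ (tr A (L.i0 ((A.c j).symm q)) j))
    (A.c (L.i0 ((A.c j).symm q)) ((A.c j).symm q)) (L.ξ0 ((A.c j).symm q))
    (L.ξ0 ((A.c j).symm q))

theorem fld_apply {j : A.ι} {X : S} (hj : X ∈ (A.c j).source) :
    L.fld j (A.c j X) = fderiv ℝ (tr A (L.i0 X) j) (A.c (L.i0 X) X) (L.ξ0 X) := by
  simp only [fld, (A.c j).left_inv hj]

theorem fld2_apply (η0 : S → E2) {j : A.ι} {X : S} (hj : X ∈ (A.c j).source) :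
    L.fld2 η0 j (A.c j X) = fderiv ℝ (tr A (L.i0 X) j) (A.c (L.i0 X) X) (η0 X) -
      fderiv ℝ (fderiv ℝ (tr A (L.i0 X) j)) (A.c (L.i0 X) X) (L.ξ0 X) (L.ξ0 X) := by
  simp only [fld2, (A.c j).left_inv hj]

theorem compat : Compat L.fld := by
  intro X i j hi hj
  rw [L.fld_apply hj, L.fld_apply hi, fderiv_tr_comp (L.src X) hi hj]

theorem fld_base (X : S) : L.fld (L.i0 X) (A.c (L.i0 X) X) = L.ξ0 X := by
  rw [L.fld_apply (L.src X), fderiv_tr_self (L.src X)]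

/-- the pair relation in all charts, from the pair relation in the base charts -/
theorem rel_of_base (η0 : S → E2)
    (hb : ∀ X Y, 0 < dist X Y → dist X Y < A.r →
      D2 (A.ell (L.i0 X) (L.i0 Y)) (A.c (L.i0 X) X, A.c (L.i0 Y) Y) (L.ξ0 X, L.ξ0 Y)
        (L.ξ0 X, L.ξ0 Y) =
      fderiv ℝ (A.ell (L.i0 X) (L.i0 Y)) (A.c (L.i0 X) X, A.c (L.i0 Y) Y) (η0 X, η0 Y))
    (i j : A.ι) (X Y : S) (hi : X ∈ (A.c i).source) (hj : Y ∈ (A.c j).source)
    (h0 : 0 < dist X Y) (hr : dist X Y < A.r) :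
    D2 (A.ell i j) (A.c i X, A.c j Y) (L.fld i (A.c i X), L.fld j (A.c j Y))
        (L.fld i (A.c i X), L.fld j (A.c j Y)) =
      fderiv ℝ (A.ell i j) (A.c i X, A.c j Y)
        (L.fld2 η0 i (A.c i X), L.fld2 η0 j (A.c j Y)) := by
  have h1 := hb X Y h0 hr
  rw [D2_ell_trans hi (L.src X) hj (L.src Y) h0 hr,
    fderiv_ell_trans hi (L.src X) hj (L.src Y) h0 hr] at h1
  rw [L.fld_apply hi, L.fld_apply hj, L.fld2_apply η0 hi, L.fld2_apply η0 hj, ← Prod.mk_sub_mk,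
    map_sub, ← h1]
  ring

end Lim

section base

theorem tendsto_clm_apply {E F : Type*} [NormedAddCommGroup E] [NormedSpace ℝ E]
    [NormedAddCommGroup F] [NormedSpace ℝ F] {l : Filter ℕ} {f : ℕ → E →L[ℝ] F} {f0 : E →L[ℝ] F}
    {g : ℕ → E} {g0 : E} (hf : Tendsto f l (𝓝 f0)) (hg : Tendsto g l (𝓝 g0)) :
    Tendsto (fun n => f n (g n)) l (𝓝 (f0 g0)) :=
  ((isBoundedBilinearMap_apply (𝕜 := ℝ) (E := E) (F := F)).continuous.tendsto (f0, g0)).comp
    (hf.prodMk_nhds hg)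

variable {C : ℕ → Config A} {U : Ultrafilter ℕ} {x y : ∀ n, Fin (C n).n → E2}

/-- passing to the limit in the pair relation -/
theorem base_rel {v : S → ∀ n, Fin (C n).n} {i0 : S → A.ι} {ξ0 η0 : S → E2}
    (hv : ∀ X, Tendsto (fun n => (C n).x (v X n)) U (𝓝 X))
    (hs : ∀ X, X ∈ (A.c (i0 X)).source)
    (hi : ∀ X, ∀ᶠ n in (U : Filter ℕ), (C n).i (v X n) = i0 X)
    (hξ : ∀ X, Tendsto (fun n => x n (v X n)) U (𝓝 (ξ0 X)))
    (hη : ∀ X, Tendsto (fun n => y n (v X n)) U (𝓝 (η0 X)))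
    (hrel : ∀ n a b, (C n).edge A.r a b → (C n).d2 a b (x n) (x n) = (C n).d1 a b (y n))
    (X Y : S) (h0 : 0 < dist X Y) (hr : dist X Y < A.r) :
    D2 (A.ell (i0 X) (i0 Y)) (A.c (i0 X) X, A.c (i0 Y) Y) (ξ0 X, ξ0 Y) (ξ0 X, ξ0 Y) =
      fderiv ℝ (A.ell (i0 X) (i0 Y)) (A.c (i0 X) X, A.c (i0 Y) Y) (η0 X, η0 Y) := by
  have hc : ContDiffAt ℝ 4 (A.ell (i0 X) (i0 Y)) (A.c (i0 X) X, A.c (i0 Y) Y) :=
    ell_contDiffAt (hs X) (hs Y) h0 hr
  have hc1 : ContDiffAt ℝ 3 (fderiv ℝ (A.ell (i0 X) (i0 Y))) (A.c (i0 X) X, A.c (i0 Y) Y) :=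
    hc.fderiv_right (by norm_num)
  have hc2 : ContDiffAt ℝ 2 (fderiv ℝ (fderiv ℝ (A.ell (i0 X) (i0 Y))))
      (A.c (i0 X) X, A.c (i0 Y) Y) := hc1.fderiv_right (by norm_num)
  have hq : ∀ Z, Tendsto (fun n => A.c (i0 Z) ((C n).x (v Z n))) U (𝓝 (A.c (i0 Z) Z)) :=
    fun Z => (((A.c (i0 Z)).continuousAt (hs Z)).tendsto).comp (hv Z)
  have hqq := (hq X).prodMk_nhds (hq Y)
  have hξξ := (hξ X).prodMk_nhds (hξ Y)
  have hηη := (hη X).prodMk_nhds (hη Y)
  have t1 : Tendsto (fun n => D2 (A.ell (i0 X) (i0 Y))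
      (A.c (i0 X) ((C n).x (v X n)), A.c (i0 Y) ((C n).x (v Y n)))
      (x n (v X n), x n (v Y n)) (x n (v X n), x n (v Y n))) U
      (𝓝 (D2 (A.ell (i0 X) (i0 Y)) (A.c (i0 X) X, A.c (i0 Y) Y) (ξ0 X, ξ0 Y) (ξ0 X, ξ0 Y))) := by
    have h1 : Tendsto (fun n => D2 (A.ell (i0 X) (i0 Y))
        (A.c (i0 X) ((C n).x (v X n)), A.c (i0 Y) ((C n).x (v Y n)))) U
        (𝓝 (D2 (A.ell (i0 X) (i0 Y)) (A.c (i0 X) X, A.c (i0 Y) Y))) :=
      hc2.continuousAt.tendsto.comp hqq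
    exact tendsto_clm_apply (tendsto_clm_apply h1 hξξ) hξξ
  have t2 : Tendsto (fun n => fderiv ℝ (A.ell (i0 X) (i0 Y))
      (A.c (i0 X) ((C n).x (v X n)), A.c (i0 Y) ((C n).x (v Y n)))
      (y n (v X n), y n (v Y n))) U
      (𝓝 (fderiv ℝ (A.ell (i0 X) (i0 Y)) (A.c (i0 X) X, A.c (i0 Y) Y) (η0 X, η0 Y))) := by
    have h1 : Tendsto (fun n => fderiv ℝ (A.ell (i0 X) (i0 Y))
        (A.c (i0 X) ((C n).x (v X n)), A.c (i0 Y) ((C n).x (v Y n)))) U
        (𝓝 (fderiv ℝ (A.ell (i0 X) (i0 Y)) (A.c (i0 X) X, A.c (i0 Y) Y))) :=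
      hc1.continuousAt.tendsto.comp hqq
    exact tendsto_clm_apply h1 hηη
  refine tendsto_nhds_unique_of_eventuallyEq t1 t2 ?_
  have hd : Tendsto (fun n => dist ((C n).x (v X n)) ((C n).x (v Y n))) U (𝓝 (dist X Y)) :=
    (hv X).dist (hv Y)
  have hd1 := hd.eventually (isOpen_Ioo.mem_nhds (show dist X Y ∈ Ioo 0 A.r from ⟨h0, hr⟩))
  filter_upwards [hi X, hi Y, hd1] with n h1 h2 h3
  have he : (C n).edge A.r (v X n) (v Y n) := by
    refine ⟨?_, h3.2⟩
    intro h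
    have := h3.1
    rw [h, dist_self] at this
    exact lt_irrefl _ this
  have := hrel n _ _ he
  simp only [Config.d2, Config.d1, Config.q, h1, h2] at this
  exact this

end base

theorem bdd_of {F : Type*} [NormedAddCommGroup F] {T : E2 → F} {x : E2}
    (h : ContinuousAt T x) : ∃ M : ℝ, 0 ≤ M ∧ ∀ᶠ y in 𝓝 x, ‖T y‖ ≤ M := by
  refine ⟨‖T x‖ + 1, by positivity, ?_⟩
  have h1 := h.norm
  filter_upwards [h1.eventually_lt (continuousAt_const (y := ‖T x‖ + 1)) (by simp)] with y h1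
  exact h1.le

/-- local boundedness of the limit fields -/
theorem lim_bounded {C : ℕ → Config A} {U : Ultrafilter ℕ} {x : ∀ n, Fin (C n).n → E2}
    (L : Lim C U x) {η0 : S → E2} (hξ : ∀ X, ‖L.ξ0 X‖ ≤ 1) (hη : ∀ X, ‖η0 X‖ ≤ 1) (i : A.ι)
    (q : E2) (hq : q ∈ (A.c i).target) :
    ∃ M, ∀ᶠ y in 𝓝 q, ‖L.fld i y‖ ≤ M ∧ ‖L.fld2 η0 i y‖ ≤ M := by
  have hX : (A.c i).symm q ∈ (A.c i).source := (A.c i).map_target hq
  have hsymm : ContinuousAt (A.c i).symm q := (A.c i).continuousAt_symm hq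
  have key : ∀ l : A.ι, ∃ M : ℝ, 0 ≤ M ∧ ∀ᶠ y in 𝓝 q, (A.c i).symm y ∈ A.K l →
      ‖fderiv ℝ (tr A l i) (A.c l ((A.c i).symm y))‖ ≤ M ∧
      ‖fderiv ℝ (fderiv ℝ (tr A l i)) (A.c l ((A.c i).symm y))‖ ≤ M := by
    intro l
    by_cases hl : (A.c i).symm q ∈ A.K l
    · have hls := A.K_sub l hl
      have c0 : ContinuousAt (fun y => A.c l ((A.c i).symm y)) q := by
        have := (tr_contDiffAt hX hls).continuousAt
        rw [(A.c i).right_inv hq] at this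
        exact this
      have hc : ContDiffAt ℝ 4 (tr A l i) (A.c l ((A.c i).symm q)) :=
        tr_contDiffAt hls hX
      have hc1 : ContDiffAt ℝ 3 (fderiv ℝ (tr A l i)) (A.c l ((A.c i).symm q)) :=
        hc.fderiv_right (by norm_num)
      have hc2 : ContDiffAt ℝ 2 (fderiv ℝ (fderiv ℝ (tr A l i))) (A.c l ((A.c i).symm q)) :=
        hc1.fderiv_right (by norm_num)
      obtain ⟨M1, p1, d1⟩ := bdd_of (F := E2 →L[ℝ] E2)
        (ContinuousAt.comp (g := fderiv ℝ (tr A l i)) (f := fun y => A.c l ((A.c i).symm y))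
          hc1.continuousAt c0)
      obtain ⟨M2, p2, d2⟩ := bdd_of (F := E2 →L[ℝ] E2 →L[ℝ] E2)
        (ContinuousAt.comp (g := fderiv ℝ (fderiv ℝ (tr A l i)))
          (f := fun y => A.c l ((A.c i).symm y)) hc2.continuousAt c0)
      refine ⟨M1 + M2, by positivity, ?_⟩
      filter_upwards [d1, d2] with y h1 h2 _
      exact ⟨h1.trans (by linarith), h2.trans (by linarith)⟩
    · refine ⟨0, le_rfl, ?_⟩
      have := hsymm.eventually ((A.K_closed l).isOpen_compl.mem_nhds hl)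
      filter_upwards [this] with y hy hy'
      exact absurd hy' hy
  choose M hM0 hM using key
  refine ⟨∑ l, 2 * M l, ?_⟩
  have hall := eventually_all.2 hM
  filter_upwards [hall] with y hy
  set Y := (A.c i).symm y with hYdef
  obtain ⟨h1, h2⟩ := hy (L.i0 Y) (L.memK Y)
  have hle : 2 * M (L.i0 Y) ≤ ∑ l, 2 * M l :=
    Finset.single_le_sum (f := fun l => 2 * M l) (fun l _ => by have := hM0 l; positivity)
      (Finset.mem_univ _)
  have hM' := hM0 (L.i0 Y)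
  have e1 : ‖fderiv ℝ (tr A (L.i0 Y) i) (A.c (L.i0 Y) Y) (L.ξ0 Y)‖ ≤ M (L.i0 Y) := by
    refine (ContinuousLinearMap.le_opNorm _ _).trans ?_
    calc _ ≤ M (L.i0 Y) * 1 := mul_le_mul h1 (hξ Y) (norm_nonneg _) hM'
      _ = _ := mul_one _
  have e2 : ‖fderiv ℝ (tr A (L.i0 Y) i) (A.c (L.i0 Y) Y) (η0 Y)‖ ≤ M (L.i0 Y) := by
    refine (ContinuousLinearMap.le_opNorm _ _).trans ?_
    calc _ ≤ M (L.i0 Y) * 1 := mul_le_mul h1 (hη Y) (norm_nonneg _) hM'
      _ = _ := mul_one _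
  have e3 : ‖fderiv ℝ (fderiv ℝ (tr A (L.i0 Y) i)) (A.c (L.i0 Y) Y) (L.ξ0 Y) (L.ξ0 Y)‖ ≤
      M (L.i0 Y) := by
    refine (ContinuousLinearMap.le_opNorm₂ _ _ _).trans ?_
    calc _ ≤ M (L.i0 Y) * 1 * 1 := mul_le_mul (mul_le_mul h2 (hξ Y) (norm_nonneg _) hM') (hξ Y)
          (norm_nonneg _) (by positivity)
      _ = _ := by ring
  constructor
  · simp only [Lim.fld]
    rw [← hYdef]
    linarith
  · simp only [Lim.fld2]
    rw [← hYdef]
    refine (norm_sub_le _ _).trans ?_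
    linarith

theorem exists_tendsto_of_bounded {C : ℕ → Config A} (U : Ultrafilter ℕ)
    {x : ∀ n, Fin (C n).n → E2} (hx : ∀ n, ‖x n‖ ≤ 1) (v : ∀ n, Fin (C n).n) :
    ∃ ξ : E2, ‖ξ‖ ≤ 1 ∧ Tendsto (fun n => x n (v n)) U (𝓝 ξ) := by
  have hcomp : IsCompact (closedBall (0 : E2) 1) := isCompact_closedBall _ _
  have hmem : ∀ n, x n (v n) ∈ closedBall (0 : E2) 1 := by
    intro n
    rw [mem_closedBall_zero_iff]
    exact (norm_le_pi_norm (x n) (v n)).trans (hx n)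
  obtain ⟨ξ, hξ, hle⟩ := hcomp.ultrafilter_le_nhds (U.map fun n => x n (v n)) (by
    rw [le_principal_iff]
    exact Filter.mem_map.2 (Filter.univ_mem' hmem))
  exact ⟨ξ, mem_closedBall_zero_iff.1 hξ, hle⟩

theorem exists_index {C : ℕ → Config A} (U : Ultrafilter ℕ) (v : ∀ n, Fin (C n).n) :
    ∃ i : A.ι, ∀ᶠ n in (U : Filter ℕ), (C n).i (v n) = i := by
  have h : ∀ᶠ n in (U : Filter ℕ), ∃ i : A.ι, (C n).i (v n) = i :=
    Eventually.of_forall fun n => ⟨_, rfl⟩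
  exact Ultrafilter.eventually_exists_iff.1 h

theorem exists_lim {C : ℕ → Config A} {U : Ultrafilter ℕ} (hU : (U : Filter ℕ) ≤ atTop)
    (hd : ∀ n, (C n).dense (1 / ((n : ℝ) + 1)))
    {x : ∀ n, Fin (C n).n → E2} (hx : ∀ n, ‖x n‖ ≤ 1) : Nonempty (Lim C U x) := by
  choose v hv using fun (X : S) (n : ℕ) => hd n X
  choose i0 hi using fun X : S => exists_index U (v X)
  choose ξ0 _ hξ using fun X : S => exists_tendsto_of_bounded U hx (v X)
  refine ⟨⟨v, i0, ξ0, fun X => ?_, hi, hξ⟩⟩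
  rw [tendsto_iff_dist_tendsto_zero]
  refine squeeze_zero (g := fun n : ℕ => 1 / ((n : ℝ) + 1)) (fun _ => dist_nonneg) (fun n => ?_)
    (tendsto_one_div_add_atTop_nhds_zero_nat.mono_left hU)
  rw [dist_comm]
  exact (hv X n).le

theorem Lim.norm_le {C : ℕ → Config A} {U : Ultrafilter ℕ} {x : ∀ n, Fin (C n).n → E2}
    (L : Lim C U x) (hx : ∀ n, ‖x n‖ ≤ 1) (X : S) : ‖L.ξ0 X‖ ≤ 1 :=
  le_of_tendsto (L.hξ X).norm
    (Eventually.of_forall fun n => (norm_le_pi_norm (x n) _).trans (hx n))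

open Classical in
/-- changing the limit at one point -/
noncomputable def Lim.update {C : ℕ → Config A} {U : Ultrafilter ℕ} {x : ∀ n, Fin (C n).n → E2}
    (L : Lim C U x) (Z : S) (a : ∀ n, Fin (C n).n) (i : A.ι) (ζ : E2)
    (ha : Tendsto (fun n => (C n).x (a n)) U (𝓝 Z))
    (hi : ∀ᶠ n in (U : Filter ℕ), (C n).i (a n) = i)
    (hζ : Tendsto (fun n => x n (a n)) U (𝓝 ζ)) : Lim C U x where
  v := fun X => if X = Z then a else L.v X
  i0 := fun X => if X = Z then i else L.i0 X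
  ξ0 := fun X => if X = Z then ζ else L.ξ0 X
  hv := by
    intro X
    by_cases h : X = Z
    · subst h; simpa using ha
    · simpa [h] using L.hv X
  hi := by
    intro X
    by_cases h : X = Z
    · subst h; simpa using hi
    · simpa [h] using L.hi X
  hξ := by
    intro X
    by_cases h : X = Z
    · subst h; simpa using hζ
    · simpa [h] using L.hξ X

/-- Step 5: uniform convergence. -/
theorem uniform_of_killing [CompactSpace S] [Nonempty S] (hD : Directions) {C : ℕ → Config A}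
    {U : Ultrafilter ℕ}
    (hU : (U : Filter ℕ) ≤ atTop) (hd : ∀ n, (C n).dense (1 / ((n : ℝ) + 1)))
    {x : ∀ n, Fin (C n).n → E2} (hx : ∀ n, ‖x n‖ ≤ 1)
    (H : ∀ L : Lim C U x, L.fld ∈ A.Killing) :
    ∃ k ∈ A.Killing, Tendsto (fun n => ‖x n - (C n).restr k‖) U (𝓝 0) := by
  classical
  obtain ⟨L⟩ := exists_lim hU hd hx
  refine ⟨L.fld, H L, ?_⟩
  rw [Metric.tendsto_nhds]
  intro δ hδ
  by_contra hcon
  rw [← Ultrafilter.eventually_not] at hcon
  -- a point where the difference is large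
  have hne : ∀ n, Nonempty (Fin (C n).n) := fun n => ⟨(hd n (Classical.arbitrary S)).choose⟩
  have hex : ∀ n, ∃ a : Fin (C n).n, ¬ dist ‖x n - (C n).restr L.fld‖ 0 < δ →
      δ ≤ ‖x n a - (C n).restr L.fld a‖ := by
    intro n
    by_cases h : dist ‖x n - (C n).restr L.fld‖ 0 < δ
    · exact ⟨Classical.choice (hne n), fun h' => absurd h h'⟩
    · by_contra hall
      push Not at hall
      apply h
      have : ‖x n - (C n).restr L.fld‖ < δ :=
        (pi_norm_lt_iff hδ).2 fun a => (hall a).2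
      simpa using this
  choose a ha using hex
  -- the limit point
  obtain ⟨Z, -, hZ⟩ := (isCompact_univ (X := S)).ultrafilter_le_nhds
    (U.map fun n => (C n).x (a n)) (by simp)
  have hZ' : Tendsto (fun n => (C n).x (a n)) U (𝓝 Z) := hZ
  obtain ⟨i, hi⟩ := exists_index U a
  obtain ⟨ζ, -, hζ⟩ := exists_tendsto_of_bounded U hx a
  let L' := L.update Z a i ζ hZ' hi hζ
  have hi0 : L'.i0 Z = i := by simp [L', Lim.update]
  have hξ0 : L'.ξ0 Z = ζ := by simp [L', Lim.update]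
  have hZs : Z ∈ (A.c i).source := by
    have := L'.src Z
    rwa [hi0] at this
  have c1 : ContinuousAt (L.fld i) (A.c i Z) := killing_continuousAt hD (H L) hZs
  have c2 : ContinuousAt (L'.fld i) (A.c i Z) := killing_continuousAt hD (H L') hZs
  have hval : L'.fld i (A.c i Z) = ζ := by
    have := L'.fld_base Z
    rw [hi0, hξ0] at this
    exact this
  have heq : ∀ᶠ q in 𝓝[≠] (A.c i Z), L'.fld i q = L.fld i q := by
    have h1 : ∀ᶠ q in 𝓝[≠] (A.c i Z), q ∈ (A.c i).target :=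
      mem_nhdsWithin_of_mem_nhds ((A.c i).open_target.mem_nhds ((A.c i).map_source hZs))
    have h2 : ∀ᶠ q in 𝓝[≠] (A.c i Z), q ≠ A.c i Z := self_mem_nhdsWithin
    filter_upwards [h1, h2] with q hq1 hq2
    have hne' : (A.c i).symm q ≠ Z := by
      intro h
      apply hq2
      rw [← h, (A.c i).right_inv hq1]
    simp [Lim.fld, L', Lim.update, hne']
  have hlim : L'.fld i (A.c i Z) = L.fld i (A.c i Z) :=
    tendsto_nhds_unique_of_eventuallyEq (c2.tendsto.mono_left nhdsWithin_le_nhds)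
      (c1.tendsto.mono_left nhdsWithin_le_nhds) heq
  -- both sequences tend to `ζ`
  have t1 : Tendsto (fun n => (C n).restr L.fld (a n)) U (𝓝 ζ) := by
    have h1 : Tendsto (fun n => L.fld i (A.c i ((C n).x (a n)))) U (𝓝 ζ) := by
      rw [← hval, hlim]
      exact c1.tendsto.comp (((A.c i).continuousAt hZs).tendsto.comp hZ')
    refine h1.congr' ?_
    filter_upwards [hi] with n hn
    simp only [Config.restr, Config.q, hn]
  have t2 : Tendsto (fun n => ‖x n (a n) - (C n).restr L.fld (a n)‖) U (𝓝 0) := by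
    have := (hζ.sub t1).norm
    simpa using this
  have h3 := t2.eventually (gt_mem_nhds hδ)
  obtain ⟨n, hn1, hn2⟩ := (hcon.and h3).exists
  exact absurd (ha n hn1) (not_le.2 hn2)

end Pool.Agent.Helper52Nets
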